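import Pool.Agent.TH497.BF.Inst

set_option autoImplicit false
set_option linter.unusedSectionVars false

/-! # Six even subgraphs from a flow with values of weight four -/

namespace Pool.Agent.TH497.BF

open Finset Pool.Agent.TH676.A

variable {V E : Type} [Fintype V] [DecidableEq V] [Fintype E] [DecidableEq E]

theorem weight4' : ∀ n < 32, inA n = true →
    ((univ : Finset (Fin 6)).filter (fun i => coord i.val n = true)).card = 4 := by decide

/-- a coordinate as a map to `Z_2` -/
def co (i : ℕ) : G →+ ZMod 2 where
  toFun x := if coord i x.v = true then 1 else 0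
  map_zero' := by
    have h : coord i 0 = false := by
      have h1 := coord_xor i 0 0
      rw [Nat.xor_self] at h1
      rw [h1]; cases coord i 0 <;> rfl
    change (if coord i 0 = true then (1 : ZMod 2) else 0) = 0
    rw [h]; rfl
  map_add' x y := by
    change (if coord i (x.v ^^^ y.v) = true then (1 : ZMod 2) else 0) = _
    rw [coord_xor]
    cases coord i x.v <;> cases coord i y.v <;> decide

/-- six even subgraphs, every edge is in exactly four of them -/
theorem six {src dst : E → V} (h : FlowOn Ag src dst ∅ ∅) : ∃ C : Fin 6 → Finset E,
    (∀ i v, Even (∑ e ∈ C i, ((if src e = v then 1 else 0) + (if dst e = v then 1 else 0)))) ∧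
    ∀ e, ((univ : Finset (Fin 6)).filter (fun i => e ∈ C i)).card = 4 := by
  obtain ⟨f, h1, _, h2⟩ := h
  refine ⟨fun i => univ.filter (fun e => coord i.val (f e).v = true), fun i v => ?_, fun e => ?_⟩
  · have h3 := congrArg (co i.val) (h1 v)
    unfold bd at h3
    rw [map_zero, map_sum] at h3
    rw [← ZMod.natCast_eq_zero_iff_even, ← h3, sum_filter, Nat.cast_sum]
    refine sum_congr rfl fun e _ => ?_
    have h4 : co i.val (f e) = if coord i.val (f e).v = true then 1 else 0 := rfl
    rw [map_add, apply_ite (co i.val), apply_ite (co i.val), map_zero, h4]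
    by_cases h5 : coord i.val (f e).v = true
    · rw [if_pos h5, if_pos h5]
      push_cast
      rfl
    · rw [if_neg h5, if_neg h5]
      simp
  · have h3 := weight4' (f e).v (f e).h (h2 e (notMem_empty _) (notMem_empty _))
    rw [← h3]
    congr 1
    ext i
    simp

end Pool.Agent.TH497.BF
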