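import Pool.Agent.TH497.BF.H23
import Pool.Agent.TH497.BF.Six
import Pool.Agent.TH455.TFA.Core

set_option autoImplicit false
set_option linter.unusedSectionVars false

/-! # Bridgeless graphs of treewidth at most four -/

namespace Pool.Agent.TH497.BF

open Finset Pool.Agent.TH676.A Pool.Agent.TH499.TF

variable {V E : Type} [Fintype V] [DecidableEq V] [Fintype E] [DecidableEq E]
variable {Γ : Type} [AddCommGroup Γ] {A : Γ → Prop} {src dst : E → V}

/-- every bridgeless graph of treewidth at most four has a flow with values in `A` -/
theorem flow4 (hF : Facts A) (hT : HasTD 5 src dst) (hB : Br src dst ∅ ∅) :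
    FlowOn A src dst ∅ ∅ :=
  Pool.Agent.TH455.TFA.core hF (fun _ _ h => noC hF h) hT hB

/-- every bridgeless graph of treewidth at most four has six even subgraphs such that every edge is
in exactly four of them -/
theorem bf4 (hT : HasTD 5 src dst) (hB : Br src dst ∅ ∅) : ∃ C : Fin 6 → Finset E,
    (∀ i v, Even (∑ e ∈ C i, ((if src e = v then 1 else 0) + (if dst e = v then 1 else 0)))) ∧
    ∀ e, ((univ : Finset (Fin 6)).filter (fun i => e ∈ C i)).card = 4 :=
  six (flow4 factsBF hT hB)

end Pool.Agent.TH497.BF
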