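import Pool.Agent.TH676.A.Cut
import Pool.Agent.TH499.TF.LemB2
import Pool.Agent.TH499.TF.H23b

set_option autoImplicit false
set_option linter.unusedSectionVars false

/-! # The finite facts on the group and the allowed values which are needed for treewidth four -/

namespace Pool.Agent.TH497.BF

open Finset Pool.Agent.TH676.A

variable {Γ : Type} [AddCommGroup Γ]

/-- the values on the four outer edges of an edge `x y` with `x ~ 0, 1` and `y ~ 2, 3` -/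
structure QD (A : Γ → Prop) (d : Fin 4 → Γ) : Prop where
  a0 : A (d 0)
  a1 : A (d 1)
  a2 : A (d 2)
  a3 : A (d 3)
  am : A (d 0 + d 1)
  eq : d 0 + d 1 = d 2 + d 3

/-- the finite facts -/
structure Facts (A : Γ → Prop) : Prop where
  alg : Alg A
  s4 : ∀ a b, A a → A b → ∃ p, A p ∧ A (p + a) ∧ A (p + b)
  /-- delete `u v` in the configuration c1: doubles `(u j | i j')`, `(u j' | i' j)` and the
  star `v ~ u, i, i'` -/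
  c1 : ∀ r, A r → ∀ d1 d2 : Fin 4 → Γ, QD A d1 → QD A d2 → d1 0 = d2 0 →
    ∃ w ι ι' : Γ, ∃ e1 e2 : Fin 4 → Γ, A w ∧ A ι ∧ A ι' ∧ w + ι + ι' = 0 ∧ QD A e1 ∧ QD A e2 ∧
      w + e1 0 + e2 0 = 0 ∧ r + d1 2 = ι + e1 2 ∧ r + d2 2 = ι' + e2 2 ∧
      d1 1 + d2 3 = e1 1 + e2 3 ∧ d1 3 + d2 1 = e1 3 + e2 1
  /-- delete `x1 y1` in the configuration c2: doubles `(u a | n c)`, `(u b | n a)`, `(u c | n b)` -/
  c2 : ∀ p q, A p → A q → ∀ d2 d3 : Fin 4 → Γ, QD A d2 → QD A d3 →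
    ∃ e1 e2 e3 : Fin 4 → Γ, QD A e1 ∧ QD A e2 ∧ QD A e3 ∧
      p + d2 0 + d3 0 = e1 0 + e2 0 + e3 0 ∧ p + d2 3 = e1 1 + e2 3 ∧
      q + d2 2 + d3 2 = e1 2 + e2 2 + e3 2 ∧ q + d3 1 = e1 3 + e3 1 ∧
      d2 1 + d3 3 = e2 1 + e3 3
  /-- delete `x1 y1` in the configuration c3: doubles `(u b | a n)`, `(u c | a b)`, `(u a | n c)` -/
  c3 : ∀ p q, A p → A q → ∀ d2 d3 : Fin 4 → Γ, QD A d2 → QD A d3 →
    ∃ e1 e2 e3 : Fin 4 → Γ, QD A e1 ∧ QD A e2 ∧ QD A e3 ∧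
      p + d2 0 + d3 0 = e1 0 + e2 0 + e3 0 ∧ p + d2 3 = e1 1 + e2 3 ∧
      q + d2 2 + d3 1 = e1 2 + e2 2 + e3 1 ∧ q + d3 2 = e1 3 + e3 2 ∧
      d2 1 + d3 3 = e2 1 + e3 3
  /-- delete `x a` and `x' a` in the doubles `(a b | c d)`, `(a c | b d)` -/
  h1 : ∀ m1 g1 m2 g2, A m1 → A g1 → A (g1 + m1) → A m2 → A g2 → A (g2 + m2) →
    ∃ e1 e2 : Fin 4 → Γ, QD A e1 ∧ QD A e2 ∧ e1 0 + e2 0 = 0 ∧ e1 1 + e2 2 = m1 + g2 ∧
      e1 2 + e2 1 = g1 + m2 ∧ e1 3 + e2 3 = (g1 + m1) + (g2 + m2)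
  /-- delete `x a`, `y d`, `x' c`, `y' b` in the doubles `(a b | c d)`, `(a c | b d)` -/
  h2 : ∀ p q, A p → A q → ∃ e1 e2 : Fin 4 → Γ, QD A e1 ∧ QD A e2 ∧ e1 0 + e2 0 = p ∧
    e1 1 + e2 2 = q ∧ e1 2 + e2 1 = q ∧ e1 3 + e2 3 = p
  /-- the Petersen graph -/
  hp : ∃ t : Fin 15 → Γ, (∀ k, A (t k)) ∧
    ∀ i, bd Pool.Agent.TH499.TF.pp Pool.Agent.TH499.TF.pq t i = 0

end Pool.Agent.TH497.BF
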