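import Pool.Agent.TH497.T4.Mask
import Pool.Agent.TH497.BF.Facts

set_option autoImplicit false
set_option linter.unusedSectionVars false

/-! # The even vectors of `Z_2^6` and the fifteen vectors of weight four -/

namespace Pool.Agent.TH497.BF

open Pool.Agent.TH497.T4 Pool.Agent.TH676.A

/-- the even vectors of `Z_2^6`, given by the number of their first five coordinates -/
structure G where
  v : ℕ
  h : v < 32
  deriving DecidableEq

namespace G

@[ext] theorem ext' {x y : G} (h : x.v = y.v) : x = y := by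
  cases x; cases y; simp only at h; subst h; rfl

instance : Zero G := ⟨⟨0, by norm_num⟩⟩
instance : Add G := ⟨fun x y => ⟨x.v ^^^ y.v, Nat.xor_lt_two_pow (n := 5) x.h y.h⟩⟩
instance : Neg G := ⟨fun x => x⟩

theorem v_add (x y : G) : (x + y).v = x.v ^^^ y.v := rfl
theorem v_zero : (0 : G).v = 0 := rfl

instance : AddCommGroup G where
  add_assoc x y z := G.ext' (Nat.xor_assoc _ _ _)
  zero_add x := G.ext' (Nat.zero_xor _)
  add_zero x := G.ext' (Nat.xor_zero _)
  nsmul := nsmulRec
  zsmul := zsmulRec
  neg_add_cancel x := G.ext' (Nat.xor_self _)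
  add_comm x y := G.ext' (Nat.xor_comm _ _)

end G

theorem ex2G : Ex2 G := fun x => G.ext' (Nat.xor_self _)

/-- the set of the fifteen codes -/
def MA : ℕ := 0x7ee8e880

/-- the code of a vector of weight four -/
def inA (n : ℕ) : Bool := Nat.beq (bt MA n) 1

/-- the vectors of weight four -/
def Ag (x : G) : Prop := inA x.v = true

instance : DecidablePred Ag := fun x => by unfold Ag; infer_instance

/-- the fifteen codes -/
def AL : List ℕ := [7, 11, 13, 14, 15, 19, 21, 22, 23, 25, 26, 27, 28, 29, 30]

theorem mem_AL : ∀ n < 32, (inA n = true ↔ n ∈ AL) := by decide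

theorem AL_lt : ∀ n ∈ AL, n < 32 := by decide

theorem AL_inA : ∀ n ∈ AL, inA n = true := by decide

/-- the six coordinates -/
def coord (i : ℕ) (n : ℕ) : Bool :=
  if i < 5 then n.testBit i
  else (n.testBit 0 ^^ n.testBit 1 ^^ n.testBit 2 ^^ n.testBit 3 ^^ n.testBit 4)

theorem weight4 : ∀ n < 32, (inA n = true ↔
    ((Finset.range 6).filter (fun i => coord i n = true)).card = 4) := by decide

theorem coord_xor (i a b : ℕ) : coord i (a ^^^ b) = (coord i a ^^ coord i b) := by
  unfold coord
  split_ifs
  · exact Nat.testBit_xor _ _ _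
  · simp only [Nat.testBit_xor]
    generalize a.testBit 0 = a0
    generalize a.testBit 1 = a1
    generalize a.testBit 2 = a2
    generalize a.testBit 3 = a3
    generalize a.testBit 4 = a4
    generalize b.testBit 0 = b0
    generalize b.testBit 1 = b1
    generalize b.testBit 2 = b2
    generalize b.testBit 3 = b3
    generalize b.testBit 4 = b4
    revert a0 a1 a2 a3 a4 b0 b1 b2 b3 b4
    decide

/-! ### Symmetries -/

/-- the transposition of the coordinates `i` and `i + 1` on codes -/
def tc (i n : ℕ) : ℕ :=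
  if i < 4 then
    (if n.testBit i = n.testBit (i + 1) then n else n ^^^ (3 <<< i))
  else (n &&& 15) ^^^ (((n.testBit 0 ^^ n.testBit 1 ^^ n.testBit 2 ^^ n.testBit 3 ^^
    n.testBit 4).toNat) <<< 4)

theorem tc_lt : ∀ i < 5, ∀ n < 32, tc i n < 32 := by decide
theorem tc_tc : ∀ i < 5, ∀ n < 32, tc i (tc i n) = n := by decide
theorem tc_A : ∀ i < 5, ∀ n < 32, inA (tc i n) = inA n := by decide

set_option maxRecDepth 100000 in
theorem tc_add : ∀ i < 5, ∀ a < 32, ∀ b < 32, tc i (a ^^^ b) = tc i a ^^^ tc i b := by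
  decide +kernel

/-- the transposition as a map of the group -/
def T (i : ℕ) (hi : i < 5) : G →+ G where
  toFun x := ⟨tc i x.v, tc_lt i hi x.v x.h⟩
  map_zero' := G.ext' (by
    have : ∀ i < 5, tc i 0 = 0 := by decide
    exact this i hi)
  map_add' x y := G.ext' (tc_add i hi x.v x.h y.v y.h)

theorem T_T (i : ℕ) (hi : i < 5) (x : G) : T i hi (T i hi x) = x :=
  G.ext' (tc_tc i hi x.v x.h)

theorem T_A (i : ℕ) (hi : i < 5) (x : G) : Ag (T i hi x) ↔ Ag x := by
  unfold Ag
  change inA (tc i x.v) = true ↔ inA x.v = true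
  rw [tc_A i hi x.v x.h]

/-- apply a word in the transpositions to a code -/
def wd : List ℕ → ℕ → ℕ
  | [], n => n
  | i :: w, n => wd w (tc i n)

end Pool.Agent.TH497.BF
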