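import Pool.Agent.TH497.BF.H23a

set_option autoImplicit false
set_option linter.unusedSectionVars false
set_option linter.unusedVariables false
set_option linter.unusedSimpArgs false
set_option synthInstance.maxHeartbeats 400000
set_option synthInstance.maxSize 2048

/-! # Two doubles with the same roots -/

namespace Pool.Agent.TH497.BF

open Finset Pool.Agent.TH676.A
open Pool.Agent.TH499.TF (Joins Ad N3 Dbl G5 gadget dlt mem_dlt_one h23adj cutU X5 chx ex4 pp pq
  mem_dlt)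

variable {V E : Type} [Fintype V] [DecidableEq V] [Fintype E] [DecidableEq E]
variable {Γ : Type} [AddCommGroup Γ] {A : Γ → Prop} {src dst : E → V}

/-- the two doubles -/
theorem h23' (hF : Facts A) (h : MinCx A src dst) {x y a b c d x' y' : V}
    (hnd : [x, y, a, b, c, d, x', y'].Nodup)
    (hx : Dbl (Ad src dst) x y a b c d) (hy : Dbl (Ad src dst) x' y' a c b d) : False := by
  have hE := hF.alg.two
  have hinj : Function.Injective (![x, y, a, b, c, d, x', y'] : Fin 8 → V) := by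
    rw [← List.nodup_ofFn]; exact hnd
  have hperm : ∀ σ : Fin 8 → Fin 8, Function.Injective σ →
      (List.ofFn ((![x, y, a, b, c, d, x', y'] : Fin 8 → V) ∘ σ)).Nodup := by
    intro σ hσ
    rw [List.nodup_ofFn]
    exact hinj.comp hσ
  obtain ⟨sa, ha, na⟩ := h23root hF h hnd hx hy
  obtain ⟨sb, hb, nb⟩ := h23root hF h (x := x) (y := y) (a := b) (b := a) (c := d) (d := c)
    (x' := y') (y' := x') (hperm ![0, 1, 3, 2, 5, 4, 7, 6] (by decide))
    ⟨hx.1.swap, hx.2.swap⟩ ⟨hy.2, hy.1⟩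
  obtain ⟨sc, hc, nc⟩ := h23root hF h (x := y) (y := x) (a := c) (b := d) (c := a) (d := b)
    (x' := x') (y' := y') (hperm ![1, 0, 4, 5, 2, 3, 6, 7] (by decide))
    ⟨hx.2, hx.1⟩ ⟨hy.1.swap, hy.2.swap⟩
  obtain ⟨sd, hd, nd⟩ := h23root hF h (x := y) (y := x) (a := d) (b := c) (c := b) (d := a)
    (x' := y') (y' := x') (hperm ![1, 0, 5, 4, 3, 2, 7, 6] (by decide))
    ⟨hx.2.swap, hx.1.swap⟩ ⟨hy.2.swap, hy.1.swap⟩
  refine config hF h gp gq (by decide) hinj (h23adj (fun _ _ h => h.symm) hx hy) {2, 3, 6, 9}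
    ⟨2, by simp⟩ ?_ {0, 1, 6, 7} (inn8 hx hy) ?_
  rotate_left
  · intro s s0 sA sI
    have i0 := sI 0 (by decide)
    have i1 := sI 1 (by decide)
    have i6 := sI 6 (by decide)
    have i7 := sI 7 (by decide)
    have z2' : s 2 = 0 := s0 2 (by decide)
    have z3' : s 3 = 0 := s0 3 (by decide)
    have z6' : s 6 = 0 := s0 6 (by decide)
    have z9' : s 9 = 0 := s0 9 (by decide)
    have j0 := i0
    have j1 := i1
    have j6 := i6
    have j7 := i7
    simp [bd, Fin.sum_univ_succ, z2', z3', z6', z9'] at j0 j1 j6 j7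
    have u0 : s 0 = s 1 := hE.eq j0
    have u1 : s 0 = s 4 := hE.eq j1
    have u6 : s 5 = s 7 := hE.eq j6
    have u7 : s 5 = s 8 := hE.eq j7
    obtain ⟨e1, e2, q1, q2, k0, k1, k2, k3⟩ := hF.h2 (s 0) (s 5) (sA 0 (by decide))
      (sA 5 (by decide))
    refine solve8 hF i0 i1 i6 i7 q1 q2 ?_ ?_ ?_ ?_
    · rw [k0, z6', add_zero, u0]
    · rw [k1, z2', zero_add, u7]
    · rw [k2, z3', zero_add, u6]
    · rw [k3, z9', add_zero, u1]
  intro ε hj
  have hε : Function.Injective ε := by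
    intro k k' hkk
    have h1 := hj k
    rw [hkk] at h1
    have hpq : ∀ k k' : Fin 10, ((gp k = gp k' ∧ gq k = gq k') ∨ (gp k = gq k' ∧ gq k = gp k')) →
        k = k' := by decide
    rcases h1.ends (hj k') with ⟨q1, q2⟩ | ⟨q1, q2⟩
    · exact hpq k k' (Or.inl ⟨hinj q1, hinj q2⟩)
    · exact hpq k k' (Or.inr ⟨hinj q1, hinj q2⟩)
  obtain ⟨_, ea, hea⟩ := (ha sa).mpr (Or.inr (Or.inr rfl))
  obtain ⟨_, eb, heb⟩ := (hb sb).mpr (Or.inr (Or.inr rfl))
  obtain ⟨_, ec, hec⟩ := (hc sc).mpr (Or.inr (Or.inr rfl))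
  obtain ⟨_, ed, hed⟩ := (hd sd).mpr (Or.inr (Or.inr rfl))
  have j0 : Joins src dst (ε 0) x y := hj 0
  have j1 : Joins src dst (ε 1) x a := hj 1
  have j2 : Joins src dst (ε 2) x b := hj 2
  have j3 : Joins src dst (ε 3) y c := hj 3
  have j4 : Joins src dst (ε 4) y d := hj 4
  have j5 : Joins src dst (ε 5) x' y' := hj 5
  have j6 : Joins src dst (ε 6) x' a := hj 6
  have j7 : Joins src dst (ε 7) x' c := hj 7
  have j8 : Joins src dst (ε 8) y' b := hj 8
  have j9 : Joins src dst (ε 9) y' d := hj 9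
  obtain ⟨L, hL⟩ : ∃ L : Finset V, ∀ z, z ∈ L ↔
      (z = x ∨ z = y ∨ z = a ∨ z = b ∨ z = c ∨ z = d ∨ z = x' ∨ z = y') :=
    ⟨{x, y, a, b, c, d, x', y'}, fun z => by simp only [mem_insert, mem_singleton]⟩
  have mx : x ∈ L := by rw [hL]; simp only [true_or, or_true]
  have my : y ∈ L := by rw [hL]; simp only [true_or, or_true]
  have ma : a ∈ L := by rw [hL]; simp only [true_or, or_true]
  have mb : b ∈ L := by rw [hL]; simp only [true_or, or_true]
  have mc : c ∈ L := by rw [hL]; simp only [true_or, or_true]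
  have md : d ∈ L := by rw [hL]; simp only [true_or, or_true]
  have mx' : x' ∈ L := by rw [hL]; simp only [true_or, or_true]
  have my' : y' ∈ L := by rw [hL]; simp only [true_or, or_true]
  have Na : sa ∉ L := by
    intro hm; apply na
    rw [hL] at hm
    rcases hm with hm | hm | hm | hm | hm | hm | hm | hm <;> rw [hm] <;>
      simp only [List.mem_cons, true_or, or_true]
  have Nb : sb ∉ L := by
    intro hm; apply nb
    rw [hL] at hm
    rcases hm with hm | hm | hm | hm | hm | hm | hm | hm <;> rw [hm] <;>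
      simp only [List.mem_cons, true_or, or_true]
  have Nc : sc ∉ L := by
    intro hm; apply nc
    rw [hL] at hm
    rcases hm with hm | hm | hm | hm | hm | hm | hm | hm <;> rw [hm] <;>
      simp only [List.mem_cons, true_or, or_true]
  have Nd : sd ∉ L := by
    intro hm; apply nd
    rw [hL] at hm
    rcases hm with hm | hm | hm | hm | hm | hm | hm | hm <;> rw [hm] <;>
      simp only [List.mem_cons, true_or, or_true]
  set r : Fin 4 → V := ![a, b, c, d] with hr
  set s : Fin 4 → V := ![sa, sb, sc, sd] with hs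
  set η : Fin 4 → E := ![ea, eb, ec, ed] with hη
  have Jη : ∀ j, Joins src dst (η j) (r j) (s j) := by
    intro j; fin_cases j
    · exact hea
    · exact heb
    · exact hec
    · exact hed
  have Rη : ∀ j, r j ∈ L := by
    intro j; fin_cases j
    · exact ma
    · exact mb
    · exact mc
    · exact md
  have Sη : ∀ j, s j ∉ L := by
    intro j; fin_cases j
    · exact Na
    · exact Nb
    · exact Nc
    · exact Nd
  have Rinj : Function.Injective r := by
    have h1 : Function.Injective ((![x, y, a, b, c, d, x', y'] : Fin 8 → V) ∘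
      (![2, 3, 4, 5] : Fin 4 → Fin 8)) := hinj.comp (by decide)
    intro i j hij
    apply h1
    fin_cases i <;> fin_cases j <;> exact hij
  -- all edges at the labels
  have key : ∀ e u w, u ∈ L → u ≠ w → Joins src dst e u w →
      (∃ k, e = ε k) ∨ ∃ j, e = η j := by
    intro e u w hu huw hjn
    have had : Ad src dst u w := ⟨huw, e, hjn⟩
    have done : ∀ k, Joins src dst (ε k) u w → (∃ k, e = ε k) ∨ ∃ j, e = η j :=
      fun k hk => Or.inl ⟨k, par hF h huw hjn hk⟩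
    have done2 : ∀ j, Joins src dst (η j) u w → (∃ k, e = ε k) ∨ ∃ j, e = η j :=
      fun k hk => Or.inr ⟨k, par hF h huw hjn hk⟩
    rw [hL] at hu
    rcases hu with rfl | rfl | rfl | rfl | rfl | rfl | rfl | rfl
    · rcases (hx.1 w).mp had with rfl | rfl | rfl
      · exact done 0 j0
      · exact done 1 j1
      · exact done 2 j2
    · rcases (hx.2 w).mp had with rfl | rfl | rfl
      · exact done 0 j0.symm
      · exact done 3 j3
      · exact done 4 j4
    · rcases (ha w).mp had with rfl | rfl | rfl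
      · exact done 1 j1.symm
      · exact done 6 j6.symm
      · exact done2 0 hea
    · rcases (hb w).mp had with rfl | rfl | rfl
      · exact done 2 j2.symm
      · exact done 8 j8.symm
      · exact done2 1 heb
    · rcases (hc w).mp had with rfl | rfl | rfl
      · exact done 3 j3.symm
      · exact done 7 j7.symm
      · exact done2 2 hec
    · rcases (hd w).mp had with rfl | rfl | rfl
      · exact done 4 j4.symm
      · exact done 9 j9.symm
      · exact done2 3 hed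
    · rcases (hy.1 w).mp had with rfl | rfl | rfl
      · exact done 5 j5
      · exact done 6 j6
      · exact done 7 j7
    · rcases (hy.2 w).mp had with rfl | rfl | rfl
      · exact done 5 j5.symm
      · exact done 8 j8
      · exact done 9 j9
  have key2 : ∀ e, src e ≠ dst e → (src e ∈ L ∨ dst e ∈ L) → (∃ k, e = ε k) ∨ ∃ j, e = η j := by
    intro e hne he
    rcases he with he | he
    · exact key e _ _ he hne (Or.inl ⟨rfl, rfl⟩)
    · exact key e _ _ he hne.symm (Or.inr ⟨rfl, rfl⟩)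
  have hεL : ∀ k, src (ε k) ∈ L ∧ dst (ε k) ∈ L := by
    have h1 : ∀ i, (![x, y, a, b, c, d, x', y'] : Fin 8 → V) i ∈ L := by
      intro i; fin_cases i <;> assumption
    intro k
    rcases hj k with ⟨h2, h3⟩ | ⟨h2, h3⟩
    · rw [h2, h3]; exact ⟨h1 _, h1 _⟩
    · rw [h2, h3]; exact ⟨h1 _, h1 _⟩
  have hcl : ∀ e, src e ≠ dst e → (src e ∈ L ∨ dst e ∈ L) →
      (src e ∈ L ∧ dst e ∈ L) ∨ ∃ j, e = η j := by
    intro e hne he
    rcases key2 e hne he with ⟨k, rfl⟩ | h1
    · exact Or.inl (hεL k)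
    · exact Or.inr h1
  have hηL : ∀ j, ¬ (src (η j) ∈ L ∧ dst (η j) ∈ L) := by
    intro j
    rcases Jη j with ⟨h1, h2⟩ | ⟨h1, h2⟩
    · rw [h1, h2]; exact fun h => Sη j h.2
    · rw [h1, h2]; exact fun h => Sη j h.1
  have hηi : ∀ i j, η i = η j ↔ i = j := by
    intro i j
    constructor
    · intro hij
      have h1 := Jη i
      rw [hij] at h1
      rcases h1.ends (Jη j) with ⟨h2, _⟩ | ⟨h2, _⟩
      · exact Rinj h2
      · exact absurd (h2 ▸ Rη i) (Sη j)
    · rintro rfl; rfl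
  have hηε : ∀ j k, η j ≠ ε k := fun j k h1 => hηL j (h1 ▸ hεL k)
  set D : Finset E := {ε 2, ε 3, ε 6, ε 9} with hD
  have hDL : ∀ e ∈ D, src e ∈ L ∧ dst e ∈ L := by
    intro e he
    simp only [hD, mem_insert, mem_singleton] at he
    rcases he with rfl | rfl | rfl | rfl <;> exact hεL _
  have hεD : ∀ k, ε k ∈ D ↔ (k = 2 ∨ k = 3 ∨ k = 6 ∨ k = 9) := by
    intro k
    simp only [hD, mem_insert, mem_singleton, hε.eq_iff]
  have hηD : ∀ j, η j ∉ D := fun j h1 => hηL j (hDL _ h1)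
  have hDi : ({2, 3, 6, 9} : Finset (Fin 10)).image ε = D := by
    rw [image_insert, image_insert, image_insert, image_singleton]
  rw [hDi]
  have hbr : ∀ Y, (dlt src dst Y \ D).card ≠ 1 := by
    intro Y0 hY0
    obtain ⟨e0, he0⟩ := card_eq_one.mp hY0
    have hm0 : e0 ∈ dlt src dst Y0 \ D := by rw [he0]; exact mem_singleton_self _
    rw [mem_sdiff] at hm0
    obtain ⟨hm0, e0D⟩ := hm0
    have hY0' : ∀ e, e ∉ D → (e ∈ dlt src dst Y0 ↔ e = e0) := by
      intro e he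
      constructor
      · intro h1
        have : e ∈ dlt src dst Y0 \ D := mem_sdiff.mpr ⟨h1, he⟩
        rw [he0, mem_singleton] at this
        exact this
      · rintro rfl; exact hm0
    have hcomp : ∀ Y, dlt src dst Yᶜ = dlt src dst Y := by
      intro Y; ext e; rw [mem_dlt, mem_dlt]; simp only [mem_compl, not_iff_not]
    have hY0c : ∀ e, e ∉ D → (e ∈ dlt src dst Y0ᶜ ↔ e = e0) := by
      rw [hcomp]; exact hY0'
    have T : ∀ Y, (∀ e, e ∉ D → (e ∈ dlt src dst Y ↔ e = e0)) → ∀ {e u w},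
        Joins src dst e u w → e ∉ D → (¬ (u ∈ Y ↔ w ∈ Y) ↔ e = e0) :=
      fun Y hY e u w hjn he => by rw [← hjn.mem_dlt]; exact hY e he
    have hU := fun Y hY => cutU (s := s) Jη Rη Sη Rinj hcl hDL (e0 := e0) Y hY e0D
    have hone : ∀ Y e1, (∀ e, e ∈ dlt src dst Y ↔ e = e1) → False := by
      intro Y e1 h1
      have h2 : (crs src dst Y).card = 1 := by
        rw [card_eq_one]
        exact ⟨e1, by ext e; rw [← dlt_eq, h1, mem_singleton]⟩
      rcases ge3 hF.alg h Y with h3 | h3 <;> omega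
    have nD : ∀ k : Fin 10, ¬ (k = 2 ∨ k = 3 ∨ k = 6 ∨ k = 9) → ε k ∉ D :=
      fun k hk h1 => hk ((hεD k).mp h1)
    have C1 : ∀ Y, (∀ e, e ∉ D → (e ∈ dlt src dst Y ↔ e = e0)) →
        (¬ (sa ∈ Y ↔ sd ∈ Y) ↔ X5 (η 0 = e0) (ε 1 = e0) (ε 0 = e0) (ε 4 = e0) (η 3 = e0)) :=
      fun Y hY => chx (T Y hY hea.symm (hηD 0)) (T Y hY j1.symm (nD 1 (by decide)))
        (T Y hY j0 (nD 0 (by decide))) (T Y hY j4 (nD 4 (by decide))) (T Y hY hed (hηD 3))
    have C2 : ∀ Y, (∀ e, e ∉ D → (e ∈ dlt src dst Y ↔ e = e0)) →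
        (¬ (sb ∈ Y ↔ sc ∈ Y) ↔ X5 (η 1 = e0) (ε 8 = e0) (ε 5 = e0) (ε 7 = e0) (η 2 = e0)) :=
      fun Y hY => chx (T Y hY heb.symm (hηD 1)) (T Y hY j8.symm (nD 8 (by decide)))
        (T Y hY j5.symm (nD 5 (by decide))) (T Y hY j7 (nD 7 (by decide))) (T Y hY hec (hηD 2))
    have hin : ∀ j, src (η j) ∈ L ∨ dst (η j) ∈ L := by
      intro j
      rcases Jη j with ⟨h1, h2⟩ | ⟨h1, h2⟩
      · left; rw [h1]; exact Rη j
      · right; rw [h2]; exact Rη j
    have hclass : (∃ k, e0 = ε k) ∨ (∃ j, e0 = η j) ∨ (src e0 ∉ L ∧ dst e0 ∉ L) := by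
      by_cases h1 : src e0 ∈ L ∨ dst e0 ∈ L
      · have hne : src e0 ≠ dst e0 := by
          intro h2
          rw [mem_dlt, h2] at hm0
          exact hm0 Iff.rfl
        rcases key2 e0 hne h1 with h2 | h2
        · exact Or.inl h2
        · exact Or.inr (Or.inl h2)
      · push Not at h1
        exact Or.inr (Or.inr h1)
    have hkey : ((¬ (sa ∈ Y0 ↔ sd ∈ Y0)) ∧ (sb ∈ Y0 ↔ sc ∈ Y0) ∧
          ¬ (src e0 ∉ L ∧ dst e0 ∉ L)) ∨
        ((sa ∈ Y0 ↔ sd ∈ Y0) ∧ (¬ (sb ∈ Y0 ↔ sc ∈ Y0)) ∧ ¬ (src e0 ∉ L ∧ dst e0 ∉ L)) ∨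
        ((sa ∈ Y0 ↔ sd ∈ Y0) ∧ (sb ∈ Y0 ↔ sc ∈ Y0) ∧ (src e0 ∉ L ∧ dst e0 ∉ L)) := by
      have c1 := C1 Y0 hY0'
      have c2 := C2 Y0 hY0'
      rcases hclass with ⟨k, rfl⟩ | ⟨j, rfl⟩ | hout
      · have hin' : ¬ (src (ε k) ∉ L ∧ dst (ε k) ∉ L) := fun h1 => h1.1 (hεL k).1
        have hk : ¬ (k = 2 ∨ k = 3 ∨ k = 6 ∨ k = 9) := fun h1 => e0D ((hεD k).mpr h1)
        simp only [hε.eq_iff, hηε] at c1 c2
        rw [← not_not (a := (sa ∈ Y0 ↔ sd ∈ Y0)), ← not_not (a := (sb ∈ Y0 ↔ sc ∈ Y0)), c1, c2]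
        refine (Or.imp (fun h => ⟨h.1, h.2, hin'⟩) (fun h => Or.inl ⟨h.1, h.2, hin'⟩)
          (?_ : (¬¬ (X5 _ _ _ _ _)) ∧ (¬ (X5 _ _ _ _ _)) ∨ (¬ (X5 _ _ _ _ _)) ∧
            (¬¬ (X5 _ _ _ _ _))))
        revert hk
        clear c1 c2 hin' hm0 hY0' hY0c e0D T hU C1 C2 he0
        revert k
        simp only [X5]
        decide
      · have hin' : ¬ (src (η j) ∉ L ∧ dst (η j) ∉ L) := fun h1 =>
          (hin j).elim (fun h2 => h1.1 h2) (fun h2 => h1.2 h2)
        have hεη : ∀ k, (ε k = η j) = False := fun k => eq_false (fun h1 => hηε j k h1.symm)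
        simp only [hεη, hηi] at c1 c2
        rw [← not_not (a := (sa ∈ Y0 ↔ sd ∈ Y0)), ← not_not (a := (sb ∈ Y0 ↔ sc ∈ Y0)), c1, c2]
        refine (Or.imp (fun h => ⟨h.1, h.2, hin'⟩) (fun h => Or.inl ⟨h.1, h.2, hin'⟩)
          (?_ : (¬¬ (X5 _ _ _ _ _)) ∧ (¬ (X5 _ _ _ _ _)) ∨ (¬ (X5 _ _ _ _ _)) ∧
            (¬¬ (X5 _ _ _ _ _))))
        clear c1 c2 hin' hm0 hY0' hY0c e0D T hU C1 C2 he0 hεη
        revert j
        simp only [X5]
        decide
      · right; right
        have o1 : ∀ k, (ε k = e0) = False := fun k => eq_false (fun h1 => by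
          rw [← h1] at hout; exact hout.1 (hεL k).1)
        have o2 : ∀ j, (η j = e0) = False := fun j => eq_false (fun h1 => by
          rw [← h1] at hout; exact (hin j).elim (fun h2 => hout.1 h2) (fun h2 => hout.2 h2))
        simp only [o1, o2, X5, Xor, not_false_eq_true, and_true, and_false, or_self, false_and,
          not_true, or_false, iff_false, not_not] at c1 c2
        exact ⟨c1, c2, hout⟩
    have F1 : ∀ Y, (∀ e, e ∉ D → (e ∈ dlt src dst Y ↔ e = e0)) →
        ¬ (src e0 ∉ L ∧ dst e0 ∉ L) → ¬ (sa ∈ Y ↔ sd ∈ Y) → sb ∉ Y → sc ∉ Y → False := by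
      intro Y hY hin' hsad hsb hsc
      by_cases hsa : sa ∈ Y
      · have hsd : sd ∉ Y := fun h1 => hsad ⟨fun _ => h1, fun _ => hsa⟩
        apply hone (Y \ L) (η 0)
        intro e
        rw [hU Y hY e, ex4]
        constructor
        · rintro ((⟨h1, _⟩ | ⟨_, h1⟩ | ⟨_, h1⟩ | ⟨_, h1⟩) | ⟨_, h1⟩)
          · exact h1
          · exact absurd h1 hsb
          · exact absurd h1 hsc
          · exact absurd h1 hsd
          · exact absurd h1 hin'
        · intro h1
          exact Or.inl (Or.inl ⟨h1, hsa⟩)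
      · have hsd : sd ∈ Y := by
          by_contra h1
          exact hsad ⟨fun h2 => absurd h2 hsa, fun h2 => absurd h2 h1⟩
        apply hone (Y \ L) (η 3)
        intro e
        rw [hU Y hY e, ex4]
        constructor
        · rintro ((⟨_, h1⟩ | ⟨_, h1⟩ | ⟨_, h1⟩ | ⟨h1, _⟩) | ⟨_, h1⟩)
          · exact absurd h1 hsa
          · exact absurd h1 hsb
          · exact absurd h1 hsc
          · exact h1
          · exact absurd h1 hin'
        · intro h1
          exact Or.inl (Or.inr (Or.inr (Or.inr ⟨h1, hsd⟩)))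
    have F2 : ∀ Y, (∀ e, e ∉ D → (e ∈ dlt src dst Y ↔ e = e0)) →
        ¬ (src e0 ∉ L ∧ dst e0 ∉ L) → ¬ (sb ∈ Y ↔ sc ∈ Y) → sa ∉ Y → sd ∉ Y → False := by
      intro Y hY hin' hsbc hsa hsd
      by_cases hsb : sb ∈ Y
      · have hsc : sc ∉ Y := fun h1 => hsbc ⟨fun _ => h1, fun _ => hsb⟩
        apply hone (Y \ L) (η 1)
        intro e
        rw [hU Y hY e, ex4]
        constructor
        · rintro ((⟨_, h1⟩ | ⟨h1, _⟩ | ⟨_, h1⟩ | ⟨_, h1⟩) | ⟨_, h1⟩)
          · exact absurd h1 hsa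
          · exact h1
          · exact absurd h1 hsc
          · exact absurd h1 hsd
          · exact absurd h1 hin'
        · intro h1
          exact Or.inl (Or.inr (Or.inl ⟨h1, hsb⟩))
      · have hsc : sc ∈ Y := by
          by_contra h1
          exact hsbc ⟨fun h2 => absurd h2 hsb, fun h2 => absurd h2 h1⟩
        apply hone (Y \ L) (η 2)
        intro e
        rw [hU Y hY e, ex4]
        constructor
        · rintro ((⟨_, h1⟩ | ⟨_, h1⟩ | ⟨h1, _⟩ | ⟨_, h1⟩) | ⟨_, h1⟩)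
          · exact absurd h1 hsa
          · exact absurd h1 hsb
          · exact h1
          · exact absurd h1 hsd
          · exact absurd h1 hin'
        · intro h1
          exact Or.inl (Or.inr (Or.inr (Or.inl ⟨h1, hsc⟩)))
    have F3 : ∀ Y, (∀ e, e ∉ D → (e ∈ dlt src dst Y ↔ e = e0)) →
        (src e0 ∉ L ∧ dst e0 ∉ L) → sa ∉ Y → sb ∉ Y → sc ∉ Y → sd ∉ Y → False := by
      intro Y hY hin' hsa hsb hsc hsd
      apply hone (Y \ L) e0
      intro e
      rw [hU Y hY e, ex4]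
      constructor
      · rintro ((⟨_, h1⟩ | ⟨_, h1⟩ | ⟨_, h1⟩ | ⟨_, h1⟩) | ⟨h1, _⟩)
        · exact absurd h1 hsa
        · exact absurd h1 hsb
        · exact absurd h1 hsc
        · exact absurd h1 hsd
        · exact h1
      · intro h1
        exact Or.inr ⟨h1, hin'⟩
    have F4 : ∀ Y, (∀ e, e ∉ D → (e ∈ dlt src dst Y ↔ e = e0)) →
        (∀ e, e ∉ D → (e ∈ dlt src dst Yᶜ ↔ e = e0)) →
        (src e0 ∉ L ∧ dst e0 ∉ L) → sa ∈ Y → sb ∉ Y → sc ∉ Y → sd ∈ Y → False := by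
      intro Y hY hYc hout hsa hsb hsc hsd
      have o2 : ∀ j, η j ≠ e0 := fun j h1 => by
        rw [← h1] at hout; exact (hin j).elim (fun h2 => hout.1 h2) (fun h2 => hout.2 h2)
      have dl1 : dlt src dst (Y \ L) = {η 0, η 3, e0} := by
        ext e
        rw [hU Y hY e, ex4, mem_insert, mem_insert, mem_singleton]
        constructor
        · rintro ((⟨h1, _⟩ | ⟨_, h1⟩ | ⟨_, h1⟩ | ⟨h1, _⟩) | ⟨h1, _⟩)
          · exact Or.inl h1
          · exact absurd h1 hsb
          · exact absurd h1 hsc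
          · exact Or.inr (Or.inl h1)
          · exact Or.inr (Or.inr h1)
        · rintro (h1 | h1 | h1)
          · exact Or.inl (Or.inl ⟨h1, hsa⟩)
          · exact Or.inl (Or.inr (Or.inr (Or.inr ⟨h1, hsd⟩)))
          · exact Or.inr ⟨h1, hout⟩
      have dl2 : dlt src dst (Yᶜ \ L) = {η 1, η 2, e0} := by
        ext e
        rw [hU Yᶜ hYc e, ex4, mem_insert, mem_insert, mem_singleton]
        constructor
        · rintro ((⟨_, h1⟩ | ⟨h1, _⟩ | ⟨h1, _⟩ | ⟨_, h1⟩) | ⟨h1, _⟩)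
          · exact absurd hsa (mem_compl.mp h1)
          · exact Or.inl h1
          · exact Or.inr (Or.inl h1)
          · exact absurd hsd (mem_compl.mp h1)
          · exact Or.inr (Or.inr h1)
        · rintro (h1 | h1 | h1)
          · exact Or.inl (Or.inr (Or.inl ⟨h1, mem_compl.mpr hsb⟩))
          · exact Or.inl (Or.inr (Or.inr (Or.inl ⟨h1, mem_compl.mpr hsc⟩)))
          · exact Or.inr ⟨h1, hout⟩
      have n03 : η 0 ≠ η 3 := fun h1 => absurd ((hηi 0 3).mp h1) (by decide)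
      have n12 : η 1 ≠ η 2 := fun h1 => absurd ((hηi 1 2).mp h1) (by decide)
      have cd1 : (dlt src dst (Y \ L)).card = 3 := by
        rw [dl1, card_eq_three]
        exact ⟨_, _, _, n03, o2 0, o2 3, rfl⟩
      have cd2 : (dlt src dst (Yᶜ \ L)).card = 3 := by
        rw [dl2, card_eq_three]
        exact ⟨_, _, _, n12, o2 1, o2 2, rfl⟩
      obtain ⟨z, hz⟩ := cutV hF h cd1
      obtain ⟨z', hz'⟩ := cutV hF h cd2
      rw [dl1] at hz
      rw [dl2] at hz'
      have ends : ∀ (j : Fin 4) (z : V), η j ∈ dlt src dst {z} → z = r j ∨ z = s j := by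
        intro j z hm
        obtain ⟨w, _, hw⟩ := mem_dlt_one.mp hm
        rcases hw.ends (Jη j) with ⟨h1, _⟩ | ⟨h1, _⟩
        · exact Or.inl h1
        · exact Or.inr h1
      have two : ∀ (i j : Fin 4) (z : V), i ≠ j → η i ∈ dlt src dst {z} → η j ∈ dlt src dst {z} →
          z = s i ∧ z = s j := by
        intro i j z hij hi hj
        rcases ends i z hi with h1 | h1
        · rcases ends j z hj with h2 | h2
          · exact absurd (Rinj (h1.symm.trans h2)) hij
          · exact absurd (h2 ▸ h1 ▸ Rη i) (Sη j)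
        · rcases ends j z hj with h2 | h2
          · exact absurd (h1 ▸ h2 ▸ Rη j) (Sη i)
          · exact ⟨h1, h2⟩
      obtain ⟨za, zd⟩ := two 0 3 z (by decide) (by rw [hz]; simp) (by rw [hz]; simp)
      obtain ⟨zb, zc⟩ := two 1 2 z' (by decide) (by rw [hz']; simp) (by rw [hz']; simp)
      change z = sa at za
      change z = sd at zd
      change z' = sb at zb
      change z' = sc at zc
      have hzz : z ≠ z' := by
        intro h1
        rw [za, zb] at h1
        exact hsb (h1 ▸ hsa)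
      have hez : e0 ∈ dlt src dst {z} := by rw [hz]; simp
      have hez' : e0 ∈ dlt src dst {z'} := by rw [hz']; simp
      obtain ⟨w, _, hw⟩ := mem_dlt_one.mp hez
      obtain ⟨w', _, hw'⟩ := mem_dlt_one.mp hez'
      have hjz : Joins src dst e0 z z' := by
        rcases hw.ends hw' with ⟨h1, _⟩ | ⟨_, h1⟩
        · exact absurd h1 hzz
        · rw [← h1]; exact hw
      have hinj10 : Function.Injective (![x, y, a, b, c, d, x', y', z, z'] : Fin 10 → V) := by
        rw [← List.nodup_ofFn]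
        change ([x, y, a, b, c, d, x', y'] ++ [z, z']).Nodup
        rw [List.nodup_append]
        refine ⟨hnd, by simpa using hzz, ?_⟩
        intro u hu v hv
        have hv' : v ∉ L := by
          simp only [List.mem_cons, List.not_mem_nil, or_false] at hv
          rcases hv with rfl | rfl
          · rw [za]; exact Na
          · rw [zb]; exact Nb
        rintro rfl
        apply hv'
        rw [hL]
        simpa only [List.mem_cons, List.not_mem_nil, or_false] using hu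
      have hinz : Inn src dst pp pq (![x, y, a, b, c, d, x', y', z, z'] : Fin 10 → V) 8 := by
        rintro w ⟨hzw, e, he⟩
        change z ≠ w at hzw
        change Joins src dst e z w at he
        have m1 : e ∈ dlt src dst {z} := mem_dlt_one.mpr ⟨w, hzw.symm, he⟩
        rw [hz, mem_insert, mem_insert, mem_singleton] at m1
        rcases m1 with rfl | rfl | rfl
        · rcases he.ends (Jη 0) with ⟨q1, _⟩ | ⟨_, q1⟩
          · exact absurd (show sa ∈ L by rw [← za, q1]; exact Rη 0) Na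
          · exact ⟨10, Or.inr ⟨rfl, q1⟩⟩
        · rcases he.ends (Jη 3) with ⟨q1, _⟩ | ⟨_, q1⟩
          · exact absurd (show sd ∈ L by rw [← zd, q1]; exact Rη 3) Nd
          · exact ⟨11, Or.inr ⟨rfl, q1⟩⟩
        · rcases he.ends hjz with ⟨_, q1⟩ | ⟨q1, _⟩
          · exact ⟨14, Or.inl ⟨rfl, q1⟩⟩
          · exact absurd q1 hzz
      have hinz' : Inn src dst pp pq (![x, y, a, b, c, d, x', y', z, z'] : Fin 10 → V) 9 := by
        rintro w ⟨hzw, e, he⟩
        change z' ≠ w at hzw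
        change Joins src dst e z' w at he
        have m1 : e ∈ dlt src dst {z'} := mem_dlt_one.mpr ⟨w, hzw.symm, he⟩
        rw [hz', mem_insert, mem_insert, mem_singleton] at m1
        rcases m1 with rfl | rfl | rfl
        · rcases he.ends (Jη 1) with ⟨q1, _⟩ | ⟨_, q1⟩
          · exact absurd (show sb ∈ L by rw [← zb, q1]; exact Rη 1) Nb
          · exact ⟨12, Or.inr ⟨rfl, q1⟩⟩
        · rcases he.ends (Jη 2) with ⟨q1, _⟩ | ⟨_, q1⟩
          · exact absurd (show sc ∈ L by rw [← zc, q1]; exact Rη 2) Nc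
          · exact ⟨13, Or.inr ⟨rfl, q1⟩⟩
        · rcases he.ends hjz with ⟨q1, _⟩ | ⟨_, q1⟩
          · exact absurd q1.symm hzz
          · exact ⟨14, Or.inr ⟨rfl, q1⟩⟩
      refine config1 hF h pp pq (by decide) hinj10 ?_ 0 univ ?_ ?_
      · intro k; fin_cases k
        · exact (hx.1 _).mpr (Or.inl rfl)
        · exact (hx.1 _).mpr (Or.inr (Or.inl rfl))
        · exact (hx.1 _).mpr (Or.inr (Or.inr rfl))
        · exact (hx.2 _).mpr (Or.inr (Or.inl rfl))
        · exact (hx.2 _).mpr (Or.inr (Or.inr rfl))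
        · exact (hy.1 _).mpr (Or.inl rfl)
        · exact (hy.1 _).mpr (Or.inr (Or.inl rfl))
        · exact (hy.1 _).mpr (Or.inr (Or.inr rfl))
        · exact (hy.2 _).mpr (Or.inr (Or.inl rfl))
        · exact (hy.2 _).mpr (Or.inr (Or.inr rfl))
        · exact (ha _).mpr (Or.inr (Or.inr za))
        · exact (hd _).mpr (Or.inr (Or.inr zd))
        · exact (hb _).mpr (Or.inr (Or.inr zb))
        · exact (hc _).mpr (Or.inr (Or.inr zc))
        · exact ⟨hzz, e0, hjz⟩
      · intro t _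
        fin_cases t
        · exact inn_of_N3 hx.1 ⟨0, Or.inl ⟨rfl, rfl⟩⟩ ⟨1, Or.inl ⟨rfl, rfl⟩⟩
            ⟨2, Or.inl ⟨rfl, rfl⟩⟩
        · exact inn_of_N3 hx.2 ⟨0, Or.inr ⟨rfl, rfl⟩⟩ ⟨3, Or.inl ⟨rfl, rfl⟩⟩
            ⟨4, Or.inl ⟨rfl, rfl⟩⟩
        · exact inn_of_N3 ha ⟨1, Or.inr ⟨rfl, rfl⟩⟩ ⟨6, Or.inr ⟨rfl, rfl⟩⟩
            ⟨10, Or.inl ⟨rfl, za.symm⟩⟩
        · exact inn_of_N3 hb ⟨2, Or.inr ⟨rfl, rfl⟩⟩ ⟨8, Or.inr ⟨rfl, rfl⟩⟩
            ⟨12, Or.inl ⟨rfl, zb.symm⟩⟩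
        · exact inn_of_N3 hc ⟨3, Or.inr ⟨rfl, rfl⟩⟩ ⟨7, Or.inr ⟨rfl, rfl⟩⟩
            ⟨13, Or.inl ⟨rfl, zc.symm⟩⟩
        · exact inn_of_N3 hd ⟨4, Or.inr ⟨rfl, rfl⟩⟩ ⟨9, Or.inr ⟨rfl, rfl⟩⟩
            ⟨11, Or.inl ⟨rfl, zd.symm⟩⟩
        · exact inn_of_N3 hy.1 ⟨5, Or.inl ⟨rfl, rfl⟩⟩ ⟨6, Or.inl ⟨rfl, rfl⟩⟩
            ⟨7, Or.inl ⟨rfl, rfl⟩⟩
        · exact inn_of_N3 hy.2 ⟨5, Or.inr ⟨rfl, rfl⟩⟩ ⟨8, Or.inl ⟨rfl, rfl⟩⟩
            ⟨9, Or.inl ⟨rfl, rfl⟩⟩
        · exact hinz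
        · exact hinz'
      · intro s _ _ sI
        obtain ⟨t, t1, t2⟩ := hF.hp
        exact ⟨t, t1, fun i => (t2 i).trans (sI i (mem_univ i)).symm⟩
    have cm : ∀ v, v ∈ Y0ᶜ ↔ ¬ v ∈ Y0 := fun v => mem_compl
    rcases hkey with ⟨k1, k2, k3⟩ | ⟨k1, k2, k3⟩ | ⟨k1, k2, k3⟩
    · by_cases q : sb ∈ Y0
      · exact F1 Y0ᶜ hY0c k3 (by rw [cm, cm, not_iff_not]; exact k1) (by rw [cm, not_not]; exact q)
          (by rw [cm, not_not]; exact k2.mp q)
      · exact F1 Y0 hY0' k3 k1 q (fun h1 => q (k2.mpr h1))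
    · by_cases q : sa ∈ Y0
      · exact F2 Y0ᶜ hY0c k3 (by rw [cm, cm, not_iff_not]; exact k2) (by rw [cm, not_not]; exact q)
          (by rw [cm, not_not]; exact k1.mp q)
      · exact F2 Y0 hY0' k3 k2 q (fun h1 => q (k1.mpr h1))
    · by_cases q : sa ∈ Y0
      · by_cases q2 : sb ∈ Y0
        · exact F3 Y0ᶜ hY0c k3 (by rw [cm, not_not]; exact q) (by rw [cm, not_not]; exact q2)
            (by rw [cm, not_not]; exact k2.mp q2) (by rw [cm, not_not]; exact k1.mp q)
        · exact F4 Y0 hY0' hY0c k3 q q2 (fun h1 => q2 (k2.mpr h1)) (k1.mp q)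
      · by_cases q2 : sb ∈ Y0
        · refine absurd (F4 Y0ᶜ hY0c (by rw [compl_compl]; exact hY0') k3 ((cm _).mpr q)
            (by rw [cm, not_not]; exact q2) (by rw [cm, not_not]; exact k2.mp q2)
            ((cm _).mpr (fun h1 => q (k1.mpr h1)))) id
        · exact F3 Y0 hY0' k3 q q2 (fun h1 => q2 (k2.mpr h1)) (fun h1 => q (k1.mpr h1))
  intro Y _
  exact hbr Y

/-- the clause h23 -/
theorem h23 (hF : Facts A) (h : MinCx A src dst) : ∀ x y a b c d x' y' : V,
    [x, y, a, b, c, d, x', y'].Nodup → Dbl (Ad src dst) x y a b c d →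
    Dbl (Ad src dst) x' y' a c b d → False :=
  fun _ _ _ _ _ _ _ _ hnd hx hy => h23' hF h hnd hx hy

/-- a minimal counterexample contains none of the configurations -/
theorem noC (hF : Facts A) (h : MinCx A src dst) : Pool.Agent.TH499.TF.NoC (Ad src dst) where
  g := g5 hF h
  h23 := h23 hF h
  c1 _ _ _ _ _ _ _ _ _ _ hnd hu hv hx hy := c1 hF h hnd hu hv hx hy
  c2 _ _ _ _ _ _ _ _ _ _ _ hnd h1 h2 h3 := c2 hF h hnd h1 h2 h3
  c3 _ _ _ _ _ _ _ _ _ _ _ hnd h1 h2 h3 := c3 hF h hnd h1 h2 h3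

end Pool.Agent.TH497.BF
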