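import Pool.Agent.TH497.BF.Conf2
import Pool.Agent.TH499.TF.H23b

set_option autoImplicit false
set_option linter.unusedSectionVars false
set_option linter.unusedVariables false
set_option synthInstance.maxHeartbeats 400000
set_option synthInstance.maxSize 2048

/-! # Two doubles with the same roots: the roots have degree three -/

namespace Pool.Agent.TH497.BF

open Finset Pool.Agent.TH676.A
open Pool.Agent.TH499.TF (Joins Ad N3 Dbl G5 gadget dlt mem_dlt_one h23adj)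

variable {V E : Type} [Fintype V] [DecidableEq V] [Fintype E] [DecidableEq E]
variable {Γ : Type} [AddCommGroup Γ] {A : Γ → Prop} {src dst : E → V}

theorem dlt_eq (Y : Finset V) : dlt src dst Y = crs src dst Y := rfl

/-- a cut with three edges consists of the edges at a vertex -/
theorem cutV (hF : Facts A) (h : MinCx A src dst) {Y : Finset V}
    (h3 : (dlt src dst Y).card = 3) : ∃ v, dlt src dst {v} = dlt src dst Y := by
  classical
  have h3' : (crs src dst Y).card = 3 := h3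
  obtain ⟨v, hv⟩ := star3 hF.alg h h3'
  refine ⟨v, ?_⟩
  -- the edges of the cut are edges at `v`
  have hsub : crs src dst Y ⊆ crs src dst {v} := by
    intro e he
    have h1 := hv e he
    rw [mem_crs] at he ⊢
    simp only [mem_singleton]
    intro h4
    rcases h1 with h1 | h1
    · exact he (by rw [h1, h4.mp h1])
    · exact he (by rw [h1, h4.mpr h1])
  by_contra hne
  obtain ⟨e', he', hn'⟩ : ∃ e' ∈ crs src dst {v}, e' ∉ crs src dst Y := by
    by_contra hcon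
    push Not at hcon
    exact hne (Subset.antisymm hcon hsub)
  obtain ⟨w, hwv, hw⟩ := mem_dlt_one.mp he'
  -- two of the three edges
  obtain ⟨a, b, c, hab, hac, hbc, habc⟩ := card_eq_three.mp h3'
  have ha : a ∈ crs src dst Y := by rw [habc]; simp
  have hb : b ∈ crs src dst Y := by rw [habc]; simp
  obtain ⟨x1, hx1, j1⟩ := mem_dlt_one.mp (hsub ha)
  obtain ⟨x2, hx2, j2⟩ := mem_dlt_one.mp (hsub hb)
  have hxx : x1 ≠ x2 := by
    rintro rfl
    exact hab (par hF h hx1.symm j1 j2)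
  have jm : ∀ {e : E} {u1 u2 : V} (Z : Finset V), Joins src dst e u1 u2 →
      (e ∈ crs src dst Z ↔ ¬ (u1 ∈ Z ↔ u2 ∈ Z)) := by
    intro e u1 u2 Z hj
    rw [mem_crs]
    rcases hj with ⟨q1, q2⟩ | ⟨q1, q2⟩
    · rw [q1, q2]
    · rw [q1, q2]; tauto
  have m1 := (jm Y j1).mp ha
  have m2 := (jm Y j2).mp hb
  have m3 : (v ∈ Y ↔ w ∈ Y) := by
    by_contra h4; exact hn' ((jm Y hw).mpr h4)
  have nis : ∀ {e : E} {u1 u2 : V}, u1 ≠ u2 → Joins src dst e u1 u2 →
      Nis src dst u1 ∧ Nis src dst u2 := by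
    intro e u1 u2 hne hj
    rcases hj with ⟨q1, q2⟩ | ⟨q1, q2⟩
    · have q3 : src e ≠ dst e := by rw [q1, q2]; exact hne
      exact ⟨⟨e, q3, Or.inl q1⟩, ⟨e, q3, Or.inr q2⟩⟩
    · have q3 : src e ≠ dst e := by rw [q1, q2]; exact hne.symm
      exact ⟨⟨e, q3, Or.inr q2⟩, ⟨e, q3, Or.inl q1⟩⟩
  have nv := (nis hwv.symm hw).1
  have nw := (nis hwv.symm hw).2
  have n1 := (nis hx1.symm j1).2
  have n2 := (nis hx2.symm j2).2
  by_cases hvY : v ∈ Y
  · have := cut4 hF.alg h hvY (m3.mp hvY) hwv.symm (fun q => m1 ⟨fun _ => q, fun _ => hvY⟩)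
      (fun q => m2 ⟨fun _ => q, fun _ => hvY⟩) hxx nv nw n1 n2
    omega
  · have hx1Y : x1 ∈ Y := by
      by_contra q; exact m1 ⟨fun q1 => absurd q1 hvY, fun q1 => absurd q1 q⟩
    have hx2Y : x2 ∈ Y := by
      by_contra q; exact m2 ⟨fun q1 => absurd q1 hvY, fun q1 => absurd q1 q⟩
    have := cut4 hF.alg h hx1Y hx2Y hxx hvY (fun q => hvY (m3.mpr q)) hwv.symm n1 n2 nv nw
    omega

/-- a vertex with three edges -/
theorem third (hF : Facts A) (h : MinCx A src dst) {a x x' : V}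
    (h3 : (dlt src dst {a}).card = 3) (hax : Ad src dst a x) (hax' : Ad src dst a x')
    (hne : x ≠ x') : ∃ s, s ≠ x ∧ s ≠ x' ∧ N3 (Ad src dst) a x x' s := by
  obtain ⟨n1, e1, he1⟩ := hax
  obtain ⟨n2, e2, he2⟩ := hax'
  have m1 : e1 ∈ dlt src dst {a} := mem_dlt_one.mpr ⟨x, n1.symm, he1⟩
  have m2 : e2 ∈ dlt src dst {a} := mem_dlt_one.mpr ⟨x', n2.symm, he2⟩
  have ne : e1 ≠ e2 := by
    rintro rfl
    rcases he1.ends he2 with ⟨_, h⟩ | ⟨h, _⟩
    · exact hne h
    · exact n2 h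
  have hc : ((dlt src dst {a}).erase e1).card = 2 := by rw [card_erase_of_mem m1, h3]
  have hc2 : (((dlt src dst {a}).erase e1).erase e2).card = 1 := by
    rw [card_erase_of_mem (mem_erase.mpr ⟨ne.symm, m2⟩), hc]
  obtain ⟨e3, he3⟩ := card_eq_one.mp hc2
  have m3 : e3 ∈ ((dlt src dst {a}).erase e1).erase e2 := by rw [he3]; simp
  rw [mem_erase, mem_erase] at m3
  obtain ⟨ne32, ne31, m3⟩ := m3
  obtain ⟨s, hs, hj⟩ := mem_dlt_one.mp m3
  refine ⟨s, ?_, ?_, ?_⟩
  · rintro rfl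
    exact ne31 (par hF h n1 hj he1)
  · rintro rfl
    exact ne32 (par hF h n2 hj he2)
  · intro z
    constructor
    · rintro ⟨nz, e, he⟩
      have me : e ∈ dlt src dst {a} := mem_dlt_one.mpr ⟨z, nz.symm, he⟩
      by_cases q1 : e = e1
      · subst q1
        rcases he.ends he1 with ⟨_, h⟩ | ⟨h, _⟩
        · exact Or.inl h
        · exact absurd h n1
      by_cases q2 : e = e2
      · subst q2
        rcases he.ends he2 with ⟨_, h⟩ | ⟨h, _⟩
        · exact Or.inr (Or.inl h)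
        · exact absurd h n2
      have q3 : e ∈ ((dlt src dst {a}).erase e1).erase e2 :=
        mem_erase.mpr ⟨q2, mem_erase.mpr ⟨q1, me⟩⟩
      rw [he3, mem_singleton] at q3
      subst q3
      rcases he.ends hj with ⟨_, h⟩ | ⟨h, _⟩
      · exact Or.inr (Or.inr h)
      · exact absurd h.symm hs
    · rintro (rfl | rfl | rfl)
      · exact ⟨n1, e1, he1⟩
      · exact ⟨n2, e2, he2⟩
      · exact ⟨hs.symm, e3, hj⟩

/-- the bridges after deleting the edges `x a` and `x' a` -/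
theorem brA (hF : Facts A) (h : MinCx A src dst) {a x x' : V} {e e' : E}
    (hax : Joins src dst e x a) (hax' : Joins src dst e' x' a) (hxx : x ≠ x')
    (h3 : (dlt src dst {a}).card ≠ 3) : Br src dst {e, e'} ∅ := by
  intro Y _ hY
  have hle : (crs src dst Y).card ≤ 3 := by
    have h1 := card_le_card (inter_subset_right (s₁ := crs src dst Y) (s₂ := {e, e'}))
    have h2 := card_sdiff_add_card_inter (crs src dst Y) {e, e'}
    have h4 := card_le_two (a := e) (b := e')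
    omega
  rcases ge3 hF.alg h Y with h1 | h1
  · rw [card_eq_zero] at h1
    rw [h1] at hY
    simp at hY
  · have hY3 : (crs src dst Y).card = 3 := by omega
    have hsub : ({e, e'} : Finset E) ⊆ crs src dst Y := by
      have h2 := card_sdiff_add_card_inter (crs src dst Y) {e, e'}
      have h4 := card_le_two (a := e) (b := e')
      have h5 : (crs src dst Y ∩ {e, e'}).card = 2 := by omega
      have h6 : crs src dst Y ∩ {e, e'} = {e, e'} :=
        eq_of_subset_of_card_le inter_subset_right (by omega)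
      rw [← h6]; exact inter_subset_left
    obtain ⟨z, hz⟩ := cutV hF h hY3
    have m1 : e ∈ dlt src dst {z} := by rw [hz]; exact hsub (by simp)
    have m6 : e' ∈ dlt src dst {z} := by rw [hz]; exact hsub (by simp)
    obtain ⟨w, _, hw⟩ := mem_dlt_one.mp m1
    obtain ⟨w', _, hw'⟩ := mem_dlt_one.mp m6
    have hza : z = a := by
      rcases hw.ends hax with ⟨q1, _⟩ | ⟨q1, _⟩
      · rcases hw'.ends hax' with ⟨q2, _⟩ | ⟨q2, _⟩
        · exact absurd (q1.symm.trans q2) hxx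
        · exact q2
      · exact q1
    rw [hza] at hz
    rw [hz] at h3
    exact h3 hY3

/-- labels `x y a b c d x' y'` -/
abbrev gp : Fin 10 → Fin 8 := ![0, 0, 0, 1, 1, 6, 6, 6, 7, 7]
abbrev gq : Fin 10 → Fin 8 := ![1, 2, 3, 4, 5, 7, 2, 4, 3, 5]

/-- the inner vertices of the two doubles -/
theorem inn8 {x y a b c d x' y' : V} (hx : Dbl (Ad src dst) x y a b c d)
    (hy : Dbl (Ad src dst) x' y' a c b d) : ∀ i ∈ ({0, 1, 6, 7} : Finset (Fin 8)),
    Inn src dst gp gq (![x, y, a, b, c, d, x', y'] : Fin 8 → V) i := by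
  intro t ht
  simp only [mem_insert, mem_singleton] at ht
  rcases ht with rfl | rfl | rfl | rfl
  · exact inn_of_N3 hx.1 ⟨0, Or.inl ⟨rfl, rfl⟩⟩ ⟨1, Or.inl ⟨rfl, rfl⟩⟩ ⟨2, Or.inl ⟨rfl, rfl⟩⟩
  · exact inn_of_N3 hx.2 ⟨0, Or.inr ⟨rfl, rfl⟩⟩ ⟨3, Or.inl ⟨rfl, rfl⟩⟩ ⟨4, Or.inl ⟨rfl, rfl⟩⟩
  · exact inn_of_N3 hy.1 ⟨5, Or.inl ⟨rfl, rfl⟩⟩ ⟨6, Or.inl ⟨rfl, rfl⟩⟩ ⟨7, Or.inl ⟨rfl, rfl⟩⟩
  · exact inn_of_N3 hy.2 ⟨5, Or.inr ⟨rfl, rfl⟩⟩ ⟨8, Or.inl ⟨rfl, rfl⟩⟩ ⟨9, Or.inl ⟨rfl, rfl⟩⟩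

/-- the new values -/
theorem solve8 (hF : Facts A) {s : Fin 10 → Γ} (i0 : bd gp gq s 0 = 0) (i1 : bd gp gq s 1 = 0)
    (i6 : bd gp gq s 6 = 0) (i7 : bd gp gq s 7 = 0) {e1 e2 : Fin 4 → Γ} (q1 : QD A e1)
    (q2 : QD A e2) (ka : e1 0 + e2 0 = s 1 + s 6) (kb : e1 1 + e2 2 = s 2 + s 8)
    (kc : e1 2 + e2 1 = s 3 + s 7) (kd : e1 3 + e2 3 = s 4 + s 9) :
    ∃ t : Fin 10 → Γ, (∀ k, A (t k)) ∧ ∀ i, bd gp gq t i = bd gp gq s i := by
  have hE := hF.alg.two
  refine ⟨![e1 0 + e1 1, e1 0, e1 1, e1 2, e1 3, e2 0 + e2 1, e2 0, e2 1, e2 2, e2 3], ?_, ?_⟩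
  · intro k; fin_cases k
    · exact q1.am
    · exact q1.a0
    · exact q1.a1
    · exact q1.a2
    · exact q1.a3
    · exact q2.am
    · exact q2.a0
    · exact q2.a1
    · exact q2.a2
    · exact q2.a3
  · intro t; fin_cases t
    · refine Eq.trans ?_ i0.symm
      refine Eq.trans ?_ (hE (e1 0 + e1 1))
      simp [bd, Fin.sum_univ_succ]
    · refine Eq.trans ?_ i1.symm
      simp [bd, Fin.sum_univ_succ]
      rw [q1.eq]; exact hE _
    · simp [bd, Fin.sum_univ_succ]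
      exact ka
    · simp [bd, Fin.sum_univ_succ]
      exact kb
    · simp [bd, Fin.sum_univ_succ]
      exact kc
    · simp [bd, Fin.sum_univ_succ]
      exact kd
    · refine Eq.trans ?_ i6.symm
      refine Eq.trans ?_ (hE (e2 0 + e2 1))
      simp [bd, Fin.sum_univ_succ]
    · refine Eq.trans ?_ i7.symm
      simp [bd, Fin.sum_univ_succ]
      rw [q2.eq]; exact hE _

/-- the root `a` has three edges -/
theorem h23deg (hF : Facts A) (h : MinCx A src dst) {x y a b c d x' y' : V}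
    (hnd : [x, y, a, b, c, d, x', y'].Nodup)
    (hx : Dbl (Ad src dst) x y a b c d) (hy : Dbl (Ad src dst) x' y' a c b d) :
    (dlt src dst {a}).card = 3 := by
  by_contra h3
  have hE := hF.alg.two
  have hinj : Function.Injective (![x, y, a, b, c, d, x', y'] : Fin 8 → V) := by
    rw [← List.nodup_ofFn]; exact hnd
  have hxx : x ≠ x' := by
    intro h
    have := @hinj 0 6 h
    exact absurd this (by decide)
  refine config hF h gp gq (by decide) hinj (h23adj (fun _ _ h => h.symm) hx hy) {1, 6}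
    ⟨1, by simp⟩ ?_ {0, 1, 6, 7} (inn8 hx hy) ?_
  · intro ε hj
    have e1 : ({1, 6} : Finset (Fin 10)).image ε = {ε 1, ε 6} := by
      rw [image_insert, image_singleton]
    rw [e1]
    exact brA hF h (hj 1) (hj 6) hxx h3
  · intro s s0 sA sI
    have i0 := sI 0 (by decide)
    have i1 := sI 1 (by decide)
    have i6 := sI 6 (by decide)
    have i7 := sI 7 (by decide)
    have z1' : s 1 = 0 := s0 1 (by decide)
    have z6' : s 6 = 0 := s0 6 (by decide)
    have j0 := i0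
    have j1 := i1
    have j6 := i6
    have j7 := i7
    simp [bd, Fin.sum_univ_succ, z1', z6'] at j0 j1 j6 j7
    have u0 : s 0 = s 2 := hE.eq j0
    have u1 : s 4 = s 3 + s 0 := by
      have := z1 hE (a := s 3) (b := s 0) (c := s 4) (by rw [← j1]; abel)
      exact this.symm
    have u6 : s 5 = s 7 := hE.eq j6
    have u7 : s 9 = s 8 + s 5 := by
      have := z1 hE (a := s 8) (b := s 5) (c := s 9) (by rw [← j7]; abel)
      exact this.symm
    obtain ⟨e1, e2, q1, q2, k0, k1, k2, k3⟩ := hF.h1 (s 0) (s 3) (s 5) (s 8) (sA 0 (by decide))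
      (sA 3 (by decide)) (u1 ▸ sA 4 (by decide)) (sA 5 (by decide)) (sA 8 (by decide))
      (u7 ▸ sA 9 (by decide))
    refine solve8 hF i0 i1 i6 i7 q1 q2 ?_ ?_ ?_ ?_
    · rw [z1', z6', k0, add_zero]
    · rw [k1, u0]
    · rw [k2, u6]
    · rw [k3, u1, u7]

/-- the root `a` -/
theorem h23root (hF : Facts A) (h : MinCx A src dst) {x y a b c d x' y' : V}
    (hnd : [x, y, a, b, c, d, x', y'].Nodup)
    (hx : Dbl (Ad src dst) x y a b c d) (hy : Dbl (Ad src dst) x' y' a c b d) :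
    ∃ s, N3 (Ad src dst) a x x' s ∧ s ∉ [x, y, a, b, c, d, x', y'] := by
  have h3 := h23deg hF h hnd hx hy
  have g := g5 hF h
  have hxa := (hx.1 a).mpr (Or.inr (Or.inl rfl))
  have hxa' := (hy.1 a).mpr (Or.inr (Or.inl rfl))
  have hxx : x ≠ x' := by
    rintro rfl
    simp at hnd
  obtain ⟨s, s1, s2, hs⟩ := third hF h h3 hxa.symm hxa'.symm hxx
  refine ⟨s, hs, ?_⟩
  have has := (hs s).mpr (Or.inr (Or.inr rfl))
  have hxy := (hx.1 y).mpr (Or.inl rfl)
  have hxb := (hx.1 b).mpr (Or.inr (Or.inr rfl))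
  have hyd := (hx.2 d).mpr (Or.inr (Or.inr rfl))
  have hxc' := (hy.1 c).mpr (Or.inr (Or.inr rfl))
  simp only [List.nodup_cons, List.mem_cons, List.not_mem_nil, not_or, not_false_eq_true,
    List.nodup_nil, and_true, or_false] at hnd ⊢
  obtain ⟨⟨q1, q2, q3, q4, q5, q6, q7⟩, ⟨q8, q9, q10, q11, q12, q13⟩, ⟨q14, q15, q16, q17, q18⟩,
    ⟨q19, q20, q21, q22⟩, ⟨q23, q24, q25⟩, ⟨q26, q27⟩, q28⟩ := hnd
  refine ⟨s1, ?_, ?_, ?_, ?_, ?_, s2, ?_⟩
  · rintro rfl
    rcases (hx.2 a).mp has.symm with h | h | h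
    · exact q2 h.symm
    · exact q15 h
    · exact q16 h
  · rintro rfl
    exact g.irr _ has
  · rintro rfl
    exact g.tri _ _ _ has hxb.symm hxa
  · rintro rfl
    exact g.tri _ _ _ has hxc'.symm hxa'
  · rintro rfl
    exact g.sq a s y x (Ne.symm q8) (Ne.symm q5) has hyd.symm hxy.symm hxa
  · rintro rfl
    rcases (hy.2 a).mp has.symm with h | h | h
    · exact q17 h
    · exact q14 h
    · exact q16 h

end Pool.Agent.TH497.BF
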