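import Pool.Agent.TH497.BF.Trans
import Pool.Agent.TH497.BF.Sol1
import Pool.Agent.TH497.BF.Sol2
import Pool.Agent.TH497.BF.Sol3

set_option autoImplicit false
set_option linter.unusedSectionVars false

/-! # The finite facts for the even vectors of `Z_2^6` and the values of weight four -/

namespace Pool.Agent.TH497.BF

open Pool.Agent.TH497.T4 Pool.Agent.TH676.A

theorem c2Ag : ∀ p q, Ag p → Ag q → P2 p q := by
  refine pair_induct P2 P2_map ?_
  intro q hq
  rcases hq with h | h | h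
  · refine P2_rep tb2_ok (cert := ct20) ?_
    have e : cd 28 28 = 924 := by decide
    rw [h, e]; exact allB_spec ct20_chk
  · refine P2_rep tb2_ok (cert := ct21) ?_
    have e : cd 28 26 = 860 := by decide
    rw [h, e]; exact allB_spec ct21_chk
  · refine P2_rep tb2_ok (cert := ct22) ?_
    have e : cd 28 19 = 636 := by decide
    rw [h, e]; exact allB_spec ct22_chk

theorem c3Ag : ∀ p q, Ag p → Ag q → P3 p q := by
  refine pair_induct P3 P3_map ?_
  intro q hq
  rcases hq with h | h | h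
  · refine P3_rep tb3_ok (cert := ct30) ?_
    have e : cd 28 28 = 924 := by decide
    rw [h, e]; exact allB_spec ct30_chk
  · refine P3_rep tb3_ok (cert := ct31) ?_
    have e : cd 28 26 = 860 := by decide
    rw [h, e]; exact allB_spec ct31_chk
  · refine P3_rep tb3_ok (cert := ct32) ?_
    have e : cd 28 19 = 636 := by decide
    rw [h, e]; exact allB_spec ct32_chk

theorem R1_ok : okR R1 = true := by decide +kernel

theorem c1Ag (r : G) (hr : Ag r) : P1 r :=
  pair_induct (fun p _ => P1 p) (fun i hi p _ h => P1_map i hi p h)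
    (fun _ _ => P1_rep R1_ok tb3_ok (allB_spec ct1_chk)) r r hr hr

/-! ### s4 -/

def chk4 (a b : ℕ) : Bool :=
  bif inA a then (bif inA b then AL.any (fun p => inA (p ^^^ a) && inA (p ^^^ b)) else true)
  else true

theorem chk4_all : allB (fun a => allB (chk4 a) 32) 32 = true := by decide +kernel

theorem s4Ag (a b : G) (ha : Ag a) (hb : Ag b) : ∃ p, Ag p ∧ Ag (p + a) ∧ Ag (p + b) := by
  have h := allB_spec (allB_spec chk4_all a.v a.h) b.v b.h
  unfold chk4 at h
  rw [show inA a.v = true from ha, show inA b.v = true from hb, cond_true, cond_true,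
    List.any_eq_true] at h
  obtain ⟨p, h1, h2⟩ := h
  rw [Bool.and_eq_true] at h2
  exact ⟨⟨p, AL_lt p h1⟩, AL_inA p h1, h2.1, h2.2⟩

/-! ### h1 -/

/-- `a`, `b`, `c` and `a ^^^ b ^^^ c` are the values of a double -/
def vq (a b c : ℕ) : Bool := inA a && inA b && inA c && inA (a ^^^ b) && inA (a ^^^ b ^^^ c)

theorem vq_QD {a b c : ℕ} (h : vq a b c = true) : ∃ d : Fin 4 → G, QD Ag d ∧ (d 0).v = a ∧
    (d 1).v = b ∧ (d 2).v = c := by
  unfold vq at h
  simp only [Bool.and_eq_true] at h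
  obtain ⟨⟨⟨⟨h1, h2⟩, h3⟩, h4⟩, h5⟩ := h
  refine ⟨_, mkQD h1 h2 h3 h5 h4 ?_, rfl, rfl, rfl⟩
  rw [Nat.xor_comm (a ^^^ b) c, ← Nat.xor_assoc, Nat.xor_self, Nat.zero_xor]

def okH (m g : ℕ) : Bool := AL.any (fun a => AL.any (fun b => AL.any (fun c =>
  vq a b c && vq a (19 ^^^ m ^^^ c) (28 ^^^ g ^^^ b))))

def chkH (m g : ℕ) : Bool :=
  bif inA m then (bif inA g then (bif inA (g ^^^ m) then okH m g else true) else true) else true

theorem chkH_all : allB (fun m => allB (chkH m) 32) 32 = true := by decide +kernel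

/-- the statement of h1 -/
def PH (m1 g1 : G) : Prop := Ag (g1 + m1) → ∀ m2 g2, Ag m2 → Ag g2 → Ag (g2 + m2) →
    ∃ e1 e2 : Fin 4 → G, QD Ag e1 ∧ QD Ag e2 ∧ e1 0 + e2 0 = 0 ∧ e1 1 + e2 2 = m1 + g2 ∧
      e1 2 + e2 1 = g1 + m2 ∧ e1 3 + e2 3 = (g1 + m1) + (g2 + m2)

theorem PH_map (i : ℕ) (hi : i < 5) (p q : G) (h : PH (T i hi p) (T i hi q)) : PH p q := by
  intro h0 m2 g2 h2 h3 h4
  obtain ⟨e1, e2, k1, k2, m1, m3, m4, m5⟩ := h
    (by rw [← map_add]; exact (T_A i hi _).mpr h0) (T i hi m2) (T i hi g2)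
    ((T_A i hi _).mpr h2) ((T_A i hi _).mpr h3) (by rw [← map_add]; exact (T_A i hi _).mpr h4)
  refine ⟨_, _, k1.map i hi, k2.map i hi, ?_, ?_, ?_, ?_⟩ <;>
    apply T_inj i hi <;> simp only [map_add, T_T, map_zero]
  · exact m1
  · exact m3
  · exact m4
  · exact m5

theorem sumH {m1 g1 m2 g2 : G} {e1 e2 : Fin 4 → G} (k1 : QD Ag e1) (k2 : QD Ag e2)
    (h0 : e1 0 + e2 0 = 0) (h1 : e1 1 + e2 2 = m1 + g2) (h2 : e1 2 + e2 1 = g1 + m2) :
    e1 3 + e2 3 = (g1 + m1) + (g2 + m2) := by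
  have a1 : (e1 3 + e2 3) + ((e1 0 + e2 0) + (e1 1 + e2 2) + (e1 2 + e2 1)) = 0 := by
    have e : (e1 3 + e2 3) + ((e1 0 + e2 0) + (e1 1 + e2 2) + (e1 2 + e2 1)) =
      (e1 0 + e1 1 + e1 2 + e1 3) + (e2 0 + e2 1 + e2 2 + e2 3) := by abel
    rw [e, k1.sum, k2.sum]; simp
  have a2 : ((g1 + m1) + (g2 + m2)) + ((e1 0 + e2 0) + (e1 1 + e2 2) + (e1 2 + e2 1)) = 0 := by
    rw [h0, h1, h2]
    have e : ((g1 + m1) + (g2 + m2)) + (0 + (m1 + g2) + (g1 + m2)) =
      (g1 + g1) + (m1 + m1) + (g2 + g2) + (m2 + m2) := by abel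
    rw [e, ex2G g1, ex2G m1, ex2G g2, ex2G m2]; simp
  exact add_right_cancel (a1.trans a2.symm)

theorem h1Ag : ∀ p q, Ag p → Ag q → PH p q := by
  refine pair_induct PH PH_map ?_
  intro q hq h0 m2 g2 h2 h3 h4
  have n1 : inA (28 ^^^ 28) = false := by decide
  have n2 : inA (26 ^^^ 28) = false := by decide
  rcases hq with h | h | h
  · have h5 : inA (q.v ^^^ 28) = true := h0
    rw [h, n1] at h5; simp at h5
  · have h5 : inA (q.v ^^^ 28) = true := h0
    rw [h, n2] at h5; simp at h5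
  · have k := allB_spec (allB_spec chkH_all m2.v m2.h) g2.v g2.h
    unfold chkH at k
    rw [show inA m2.v = true from h2, show inA g2.v = true from h3,
      show inA (g2.v ^^^ m2.v) = true from h4, cond_true, cond_true, cond_true] at k
    unfold okH at k
    simp only [List.any_eq_true, Bool.and_eq_true] at k
    obtain ⟨a, _, b, _, c, _, k1, k2⟩ := k
    obtain ⟨e1, m1, m3, m4, m5⟩ := vq_QD k1
    obtain ⟨e2, p1, p3, p4, p5⟩ := vq_QD k2
    have E0 : e1 0 + e2 0 = 0 := G.ext' (by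
      change (e1 0).v ^^^ (e2 0).v = 0
      rw [m3, p3, Nat.xor_self])
    have E1 : e1 1 + e2 2 = ⟨28, by norm_num⟩ + g2 := G.ext' (by
      change (e1 1).v ^^^ (e2 2).v = 28 ^^^ g2.v
      rw [m4, p5, Nat.xor_comm, xor_cancel])
    have E2 : e1 2 + e2 1 = q + m2 := G.ext' (by
      change (e1 2).v ^^^ (e2 1).v = q.v ^^^ m2.v
      rw [m5, p4, h, Nat.xor_comm, xor_cancel])
    exact ⟨e1, e2, m1, p1, E0, E1, E2, sumH m1 p1 E0 E1 E2⟩

/-! ### h2 -/

/-- the statement of h2 -/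
def PK (p q : G) : Prop := ∃ e1 e2 : Fin 4 → G, QD Ag e1 ∧ QD Ag e2 ∧ e1 0 + e2 0 = p ∧
    e1 1 + e2 2 = q ∧ e1 2 + e2 1 = q ∧ e1 3 + e2 3 = p

theorem PK_map (i : ℕ) (hi : i < 5) (p q : G) (h : PK (T i hi p) (T i hi q)) : PK p q := by
  obtain ⟨e1, e2, k1, k2, m1, m3, m4, m5⟩ := h
  refine ⟨_, _, k1.map i hi, k2.map i hi, ?_, ?_, ?_, ?_⟩ <;>
    apply T_inj i hi <;> simp only [map_add, T_T]
  · exact m1
  · exact m3
  · exact m4
  · exact m5

theorem h2Ag : ∀ p q, Ag p → Ag q → PK p q := by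
  refine pair_induct PK PK_map ?_
  intro q hq
  rcases hq with h | h | h
  · refine ⟨_, _, mkQD (a := 7) (b := 27) (c := 27) (d := 7) (by decide) (by decide) (by decide)
      (by decide) (by decide) (by decide), mkQD (a := 27) (b := 7) (c := 7) (d := 27) (by decide)
      (by decide) (by decide) (by decide) (by decide) (by decide), G.ext' ?_, G.ext' ?_, G.ext' ?_,
      G.ext' ?_⟩
    · decide
    · rw [h]; decide
    · rw [h]; decide
    · decide
  · refine ⟨_, _, mkQD (a := 7) (b := 29) (c := 29) (d := 7) (by decide) (by decide) (by decide)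
      (by decide) (by decide) (by decide), mkQD (a := 27) (b := 7) (c := 7) (d := 27) (by decide)
      (by decide) (by decide) (by decide) (by decide) (by decide), G.ext' ?_, G.ext' ?_, G.ext' ?_,
      G.ext' ?_⟩
    · decide
    · rw [h]; decide
    · rw [h]; decide
    · decide
  · refine ⟨_, _, mkQD (a := 7) (b := 29) (c := 29) (d := 7) (by decide) (by decide) (by decide)
      (by decide) (by decide) (by decide), mkQD (a := 27) (b := 14) (c := 14) (d := 27) (by decide)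
      (by decide) (by decide) (by decide) (by decide) (by decide), G.ext' ?_, G.ext' ?_, G.ext' ?_,
      G.ext' ?_⟩
    · decide
    · rw [h]; decide
    · rw [h]; decide
    · decide

/-! ### The Petersen graph -/

def tP : Fin 15 → G := ![⟨28, by norm_num⟩, ⟨19, by norm_num⟩, ⟨15, by norm_num⟩,
  ⟨11, by norm_num⟩, ⟨23, by norm_num⟩, ⟨27, by norm_num⟩, ⟨14, by norm_num⟩, ⟨21, by norm_num⟩,
  ⟨22, by norm_num⟩, ⟨13, by norm_num⟩, ⟨29, by norm_num⟩, ⟨26, by norm_num⟩, ⟨25, by norm_num⟩,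
  ⟨30, by norm_num⟩, ⟨7, by norm_num⟩]

theorem hpAg : ∃ t : Fin 15 → G, (∀ k, Ag (t k)) ∧
    ∀ i, bd Pool.Agent.TH499.TF.pp Pool.Agent.TH499.TF.pq t i = 0 :=
  ⟨tP, by decide +kernel, by decide +kernel⟩

/-! ### Homogeneity -/

theorem not_zero : ¬ Ag 0 := by
  unfold Ag
  decide

theorem toRep : ∀ p q, Ag p → Ag q → (Ag (p + q) → ∃ σ : G →+ G, (∀ x, Ag x → Ag (σ x)) ∧
    σ p = ⟨28, by norm_num⟩ ∧ σ q = ⟨19, by norm_num⟩) := by
  refine pair_induct _ ?_ ?_
  · intro i hi p q h h0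
    obtain ⟨σ, h1, h2, h3⟩ := h (by rw [← map_add]; exact (T_A i hi _).mpr h0)
    exact ⟨σ.comp (T i hi), fun x hx => h1 _ ((T_A i hi _).mpr hx), h2, h3⟩
  · intro q hq h0
    have n1 : inA (28 ^^^ 28) = false := by decide
    have n2 : inA (28 ^^^ 26) = false := by decide
    rcases hq with h | h | h
    · have h5 : inA (28 ^^^ q.v) = true := h0
      rw [h, n1] at h5; simp at h5
    · have h5 : inA (28 ^^^ q.v) = true := h0
      rw [h, n2] at h5; simp at h5
    · exact ⟨AddMonoidHom.id G, fun x hx => hx, rfl, G.ext' h⟩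

theorem fromRep : ∀ p q, Ag p → Ag q → (Ag (p + q) → ∃ σ : G →+ G, (∀ x, Ag x → Ag (σ x)) ∧
    σ ⟨28, by norm_num⟩ = p ∧ σ ⟨19, by norm_num⟩ = q) := by
  refine pair_induct _ ?_ ?_
  · intro i hi p q h h0
    obtain ⟨σ, h1, h2, h3⟩ := h (by rw [← map_add]; exact (T_A i hi _).mpr h0)
    refine ⟨(T i hi).comp σ, fun x hx => (T_A i hi _).mpr (h1 _ hx), ?_, ?_⟩
    · rw [AddMonoidHom.comp_apply, h2, T_T]
    · rw [AddMonoidHom.comp_apply, h3, T_T]
  · intro q hq h0
    have n1 : inA (28 ^^^ 28) = false := by decide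
    have n2 : inA (28 ^^^ 26) = false := by decide
    rcases hq with h | h | h
    · have h5 : inA (28 ^^^ q.v) = true := h0
      rw [h, n1] at h5; simp at h5
    · have h5 : inA (28 ^^^ q.v) = true := h0
      rw [h, n2] at h5; simp at h5
    · exact ⟨AddMonoidHom.id G, fun x hx => hx, rfl, G.ext' h.symm⟩

theorem algAg : Alg Ag where
  two := ex2G
  zero := not_zero
  hom a b a' b' ha hb hab ha' hb' hab' := by
    obtain ⟨σ, s1, s2, s3⟩ := toRep a b ha hb hab
    obtain ⟨τ, t1, t2, t3⟩ := fromRep a' b' ha' hb' hab'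
    refine ⟨τ.comp σ, fun x hx => t1 _ (s1 _ hx), ?_, ?_⟩
    · rw [AddMonoidHom.comp_apply, s2, t2]
    · rw [AddMonoidHom.comp_apply, s3, t3]

/-- the finite facts for Berge–Fulkerson covers -/
theorem factsBF : Facts Ag where
  alg := algAg
  s4 := s4Ag
  c1 r hr := c1Ag r hr
  c2 p q hp hq := c2Ag p q hp hq
  c3 p q hp hq := c3Ag p q hp hq
  h1 m1 g1 m2 g2 h1 h2 h3 h4 h5 h6 := h1Ag m1 g1 h1 h2 h3 m2 g2 h4 h5 h6
  h2 p q hp hq := h2Ag p q hp hq
  hp := hpAg

end Pool.Agent.TH497.BF
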