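import Pool.Agent.TH497.BF.Words

set_option autoImplicit false
set_option linter.unusedSectionVars false

/-! # Sums of three parts by tables of masks -/

namespace Pool.Agent.TH497.BF

open Pool.Agent.TH497.T4

/-- code of a pair of codes -/
def cd (a b : ℕ) : ℕ := a ^^^ (b <<< 5)

theorem cd_xor (a b c d : ℕ) : cd a b ^^^ cd c d = cd (a ^^^ c) (b ^^^ d) := by
  unfold cd
  rw [Nat.shiftLeft_xor_distrib]
  simp only [Nat.xor_assoc, Nat.xor_left_comm]

theorem cd_lt {a b : ℕ} (ha : a < 32) (hb : b < 32) : cd a b < 1024 := by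
  unfold cd
  refine Nat.xor_lt_two_pow (n := 10) (by omega) ?_
  rw [Nat.shiftLeft_eq]; omega

theorem cd_low {a b : ℕ} (ha : a < 32) : cd a b % 32 = a := by
  unfold cd
  have h := Nat.xor_mod_two_pow (a := a) (b := b <<< 5) (n := 5)
  norm_num at h
  rw [h, Nat.shiftLeft_eq]
  have h2 : b * 2 ^ 5 % 32 = 0 := by omega
  rw [h2, Nat.xor_zero, Nat.mod_eq_of_lt ha]

theorem cd_high {a b : ℕ} (ha : a < 32) : cd a b >>> 5 = b := by
  unfold cd
  rw [Nat.shiftRight_xor_distrib]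
  have h1 : a >>> 5 = 0 := by rw [Nat.shiftRight_eq_div_pow]; omega
  have h2 : (b <<< 5) >>> 5 = b := Nat.shiftLeft_shiftRight _ _
  rw [h1, h2, Nat.zero_xor]

theorem cd_inj {a b c d : ℕ} (ha : a < 32) (hc : c < 32) (h : cd a b = cd c d) :
    a = c ∧ b = d := by
  have h1 := cd_low (b := b) ha
  have h2 := cd_low (b := d) hc
  have h3 := cd_high (b := b) ha
  have h4 := cd_high (b := d) hc
  rw [h] at h1 h3
  exact ⟨h1.symm.trans h2, h3.symm.trans h4⟩

theorem cd_split (r : ℕ) : r = cd (r &&& 31) (r >>> 5) := by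
  unfold cd
  apply Nat.eq_of_testBit_eq
  intro i
  rw [Nat.testBit_xor, Nat.testBit_and, Nat.testBit_shiftLeft, Nat.testBit_shiftRight]
  by_cases h : i < 5
  · have h1 : (31 : ℕ).testBit i = true := by
      have : ∀ i < 5, (31 : ℕ).testBit i = true := by decide
      exact this i h
    have h2 : ¬ (i ≥ 5) := by omega
    rw [h1]; simp [h2]
  · have h1 : (31 : ℕ).testBit i = false := by
      refine Nat.testBit_lt_two_pow (lt_of_lt_of_le (by norm_num : 31 < 2 ^ 5) ?_)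
      exact Nat.pow_le_pow_right (by norm_num) (by omega)
    have h2 : i ≥ 5 := by omega
    rw [h1]; simp [h2]

theorem inA_lt {n : ℕ} (h : inA n = true) : n < 32 := by
  by_contra hn
  unfold inA at h
  have h1 := Nat.eq_of_beq_eq_true h
  rw [bt_eq] at h1
  have h2 : MA.testBit n = false := by
    refine Nat.testBit_lt_two_pow (lt_of_lt_of_le (by decide : MA < 2 ^ 32) ?_)
    exact Nat.pow_le_pow_right (by norm_num) (by omega)
  rw [h2] at h1
  simp at h1

theorem inA_mem {n : ℕ} (h : inA n = true) : n ∈ AL := (mem_AL n (inA_lt h)).mp h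

/-- the slices of the double: `m` is the value of the middle edge, `z` and `m ^^^ z` are the values
on one side, `a` and `a ^^^ m` on the other side -/
def FL (f : ℕ → ℕ → ℕ → ℕ) (z : ℕ) : List ℕ :=
  AL.flatMap (fun m => bif inA (m ^^^ z) then
    AL.flatMap (fun a => bif inA (a ^^^ m) then [f z m a] else []) else [])

theorem mem_FL {f : ℕ → ℕ → ℕ → ℕ} {z r : ℕ} : r ∈ FL f z ↔
    ∃ m a, inA m = true ∧ inA (m ^^^ z) = true ∧ inA a = true ∧ inA (a ^^^ m) = true ∧
      r = f z m a := by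
  unfold FL
  rw [List.mem_flatMap]
  constructor
  · rintro ⟨m, hm, h⟩
    cases h1 : inA (m ^^^ z)
    · rw [h1] at h; simp at h
    · rw [h1, cond_true, List.mem_flatMap] at h
      obtain ⟨a, ha, h⟩ := h
      cases h2 : inA (a ^^^ m)
      · rw [h2] at h; simp at h
      · rw [h2, cond_true, List.mem_singleton] at h
        exact ⟨m, a, AL_inA m hm, h1, AL_inA a ha, h2, h⟩
  · rintro ⟨m, a, h1, h2, h3, h4, h5⟩
    refine ⟨m, inA_mem h1, ?_⟩
    rw [h2, cond_true, List.mem_flatMap]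
    refine ⟨a, inA_mem h3, ?_⟩
    rw [h4, cond_true, List.mem_singleton]
    exact h5

def fI (z m a : ℕ) : ℕ := cd a (m ^^^ z)
def fII (z m a : ℕ) : ℕ := cd (m ^^^ z) a
def fIII (_ m a : ℕ) : ℕ := cd a (a ^^^ m)

/-- all values are below 1024 -/
def FLt (f : ℕ → ℕ → ℕ → ℕ) : Prop := ∀ z m a, inA m = true → inA (m ^^^ z) = true →
  inA a = true → inA (a ^^^ m) = true → f z m a < 1024

theorem fI_lt : FLt fI := fun _ _ _ _ h2 h3 _ => cd_lt (inA_lt h3) (inA_lt h2)
theorem fII_lt : FLt fII := fun _ _ _ _ h2 h3 _ => cd_lt (inA_lt h2) (inA_lt h3)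
theorem fIII_lt : FLt fIII := fun _ _ _ _ _ h3 h4 => cd_lt (inA_lt h3) (inA_lt h4)

theorem FL_lt {f : ℕ → ℕ → ℕ → ℕ} (hf : FLt f) {z r : ℕ} (h : r ∈ FL f z) : r < 1024 := by
  obtain ⟨m, a, h1, h2, h3, h4, rfl⟩ := mem_FL.mp h
  exact hf z m a h1 h2 h3 h4

/-- the table is correct in the row `x` -/
def okRow (f g : ℕ → ℕ → ℕ → ℕ) (tb : ℕ → ℕ → ℕ) (x : ℕ) : Bool :=
  allB (fun y => Nat.beq (tb x y) (bif inA x then (bif inA y then
    conv (FL f x) (mask (FL g y)) else 0) else 0)) 32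

theorem tb_spec {f g : ℕ → ℕ → ℕ → ℕ} (hf : FLt f) (hg : FLt g) {tb : ℕ → ℕ → ℕ}
    (h : ∀ x < 32, okRow f g tb x = true) {x y r : ℕ} (hx : x < 32) (hy : y < 32)
    (hr : r < 1024) : (tb x y).testBit r = true ↔ inA x = true ∧ inA y = true ∧
      ∃ r2 ∈ FL f x, ∃ r3 ∈ FL g y, r = r2 ^^^ r3 := by
  have h1 := Nat.eq_of_beq_eq_true (allB_spec (h x hx) y hy)
  rw [h1]
  cases h2 : inA x
  · simp
  · cases h3 : inA y
    · simp
    · simp only [cond_true, true_and]
      rw [conv_testBit (fun r hr => FL_lt hf hr) hr]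
      constructor
      · rintro ⟨r2, h4, h5⟩
        rw [mask_testBit] at h5
        exact ⟨r2, h4, _, h5, by rw [Nat.xor_comm, Nat.xor_assoc, Nat.xor_self, Nat.xor_zero]⟩
      · rintro ⟨r2, h4, r3, h5, h6⟩
        refine ⟨r2, h4, ?_⟩
        rw [mask_testBit, h6, Nat.xor_comm, ← Nat.xor_assoc, Nat.xor_self, Nat.zero_xor]
        exact h5

/-- decode a triple -/
def dec (t : ℕ) : ℕ × ℕ × ℕ := (Nat.land t 31, Nat.land (Nat.shiftRight t 5) 31, Nat.shiftRight t 10)

/-- the union of some translates -/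
def cov (tb : ℕ → ℕ → ℕ) (L : List ℕ) (w2 w3 : ℕ) : ℕ :=
  L.foldl (fun acc t => acc |||
    tr (dec t).2.2 (tb (w2 ^^^ (dec t).1) (w3 ^^^ (dec t).2.1))) 0

/-- the certificate for the row `x` -/
def okC (tb : ℕ → ℕ → ℕ) (R : ℕ) (valid : ℕ → ℕ → ℕ → Bool) (e1 e2 r1 : ℕ)
    (cert : ℕ → ℕ → List ℕ) (x : ℕ) : Bool :=
  allB (fun y => bif inA x then (bif inA y then
    (bif (cert x y).all (fun t => valid (dec t).1 (dec t).2.1 (dec t).2.2) then
      Nat.beq (Nat.lor (Nat.land (tr r1 (tb x y)) R) (cov tb (cert x y) (x ^^^ e1) (y ^^^ e2)))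
        (cov tb (cert x y) (x ^^^ e1) (y ^^^ e2)) else false) else true) else true) 32

theorem okC_spec {f g : ℕ → ℕ → ℕ → ℕ} (hf : FLt f) (hg : FLt g) {tb : ℕ → ℕ → ℕ}
    (h : ∀ x < 32, okRow f g tb x = true) {R : ℕ} {valid : ℕ → ℕ → ℕ → Bool}
    (hv : ∀ a b r, valid a b r = true → a < 32 → b < 32 → r < 1024) {e1 e2 r1 : ℕ}
    (he1 : e1 < 32) (he2 : e2 < 32) (hr1 : r1 < 1024) {cert : ℕ → ℕ → List ℕ} {x y : ℕ}
    (hc : okC tb R valid e1 e2 r1 cert x = true) (hx : inA x = true) (hy : inA y = true)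
    {r2 r3 : ℕ} (h2 : r2 ∈ FL f x) (h3 : r3 ∈ FL g y) (hR : R.testBit (r1 ^^^ (r2 ^^^ r3)) = true) :
    ∃ a b r, valid a b r = true ∧ a < 32 ∧ b < 32 ∧ inA (x ^^^ e1 ^^^ a) = true ∧
      inA (y ^^^ e2 ^^^ b) = true ∧ ∃ r2' ∈ FL f (x ^^^ e1 ^^^ a), ∃ r3' ∈ FL g (y ^^^ e2 ^^^ b),
        r1 ^^^ (r2 ^^^ r3) = r ^^^ (r2' ^^^ r3') := by
  have hx5 := inA_lt hx
  have hy5 := inA_lt hy
  have hl2 := FL_lt hf h2
  have hl3 := FL_lt hg h3
  have hl23 : r2 ^^^ r3 < 2 ^ 10 := Nat.xor_lt_two_pow hl2 hl3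
  have hl : r1 ^^^ (r2 ^^^ r3) < 1024 := Nat.xor_lt_two_pow (n := 10) hr1 hl23
  have k := allB_spec hc y hy5
  simp only [hx, hy, cond_true] at k
  cases k1 : (cert x y).all (fun t => valid (dec t).1 (dec t).2.1 (dec t).2.2)
  · rw [k1] at k; exact absurd k (by simp)
  · rw [k1, cond_true] at k
    have k2 := Nat.eq_of_beq_eq_true k
    rw [List.all_eq_true] at k1
    have k3 : (cov tb (cert x y) (x ^^^ e1) (y ^^^ e2)).testBit (r1 ^^^ (r2 ^^^ r3)) = true := by
      refine sub_of_or k2 _ ?_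
      have k4 : Nat.land (tr r1 (tb x y)) R = (tr r1 (tb x y)) &&& R := rfl
      rw [k4, Nat.testBit_and, hR, Bool.and_true, tr_testBit hr1 hl]
      rw [Nat.xor_comm r1, Nat.xor_assoc, Nat.xor_self, Nat.xor_zero]
      exact (tb_spec hf hg h hx5 hy5 hl23).mpr ⟨hx, hy, r2, h2, r3, h3, rfl⟩
    unfold cov at k3
    rw [foldl_or_testBit (fun t => tr (dec t).2.2
      (tb (x ^^^ e1 ^^^ (dec t).1) (y ^^^ e2 ^^^ (dec t).2.1)))] at k3
    rcases k3 with k3 | ⟨t, k4, k5⟩
    · simp at k3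
    · have k6 := k1 t k4
      have a5 : (dec t).1 < 32 := by
        have : (dec t).1 ≤ 31 := Nat.and_le_right
        omega
      have b5 : (dec t).2.1 < 32 := by
        have : (dec t).2.1 ≤ 31 := Nat.and_le_right
        omega
      have hrt := hv _ _ _ k6 a5 b5
      rw [tr_testBit hrt hl] at k5
      have hxa : x ^^^ e1 ^^^ (dec t).1 < 32 :=
        Nat.xor_lt_two_pow (n := 5) (Nat.xor_lt_two_pow (n := 5) hx5 he1) a5
      have hyb : y ^^^ e2 ^^^ (dec t).2.1 < 32 :=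
        Nat.xor_lt_two_pow (n := 5) (Nat.xor_lt_two_pow (n := 5) hy5 he2) b5
      have hlr : (r1 ^^^ (r2 ^^^ r3)) ^^^ (dec t).2.2 < 1024 :=
        Nat.xor_lt_two_pow (n := 10) hl hrt
      obtain ⟨m1, m2, r2', m3, r3', m4, m5⟩ := (tb_spec hf hg h hxa hyb hlr).mp k5
      refine ⟨_, _, _, k6, a5, b5, m1, m2, r2', m3, r3', m4, ?_⟩
      rw [← m5, Nat.xor_comm (dec t).2.2, Nat.xor_assoc, Nat.xor_self, Nat.xor_zero]

/-- a valid double: `a` and `b` are two of the outer values, `r` codes the others -/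
def vD (b d r : ℕ) : Bool :=
  bif inA (Nat.land r 31) then (bif inA b then (bif inA (Nat.shiftRight r 5) then (bif inA d then
    (bif inA (Nat.xor (Nat.land r 31) b) then
      Nat.beq (Nat.xor (Nat.land r 31) b) (Nat.xor (Nat.shiftRight r 5) d)
    else false) else false) else false) else false) else false

theorem vD_spec {b d r : ℕ} (h : vD b d r = true) : ∃ a g, inA a = true ∧ inA b = true ∧
    inA g = true ∧ inA d = true ∧ inA (a ^^^ b) = true ∧ a ^^^ b = g ^^^ d ∧ r = cd a g := by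
  unfold vD at h
  cases h1 : inA (Nat.land r 31)
  · rw [h1] at h; exact absurd h (by simp)
  cases h2 : inA b
  · rw [h1, h2] at h; exact absurd h (by simp)
  cases h3 : inA (Nat.shiftRight r 5)
  · rw [h1, h2, h3] at h; exact absurd h (by simp)
  cases h4 : inA d
  · rw [h1, h2, h3, h4] at h; exact absurd h (by simp)
  cases h5 : inA (Nat.xor (Nat.land r 31) b)
  · rw [h1, h2, h3, h4, h5] at h; exact absurd h (by simp)
  rw [h1, h2, h3, h4, h5] at h
  exact ⟨_, _, h1, rfl, h3, rfl, h5, Nat.eq_of_beq_eq_true h, cd_split r⟩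

theorem vD_lt : ∀ a b r, vD a b r = true → a < 32 → b < 32 → r < 1024 := by
  intro a b r h _ _
  obtain ⟨a, g, h1, _, h3, _, _, _, h7⟩ := vD_spec h
  rw [h7]; exact cd_lt (inA_lt h1) (inA_lt h3)

/-- a star with the values `a`, `b`, `r` -/
def vY (a b r : ℕ) : Bool :=
  bif inA a then (bif inA b then (bif inA r then Nat.beq (Nat.xor a b) r else false) else false)
  else false

theorem vY_spec {a b r : ℕ} (h : vY a b r = true) : inA a = true ∧ inA b = true ∧ inA r = true ∧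
    a ^^^ b = r := by
  unfold vY at h
  cases h1 : inA a
  · rw [h1] at h; exact absurd h (by simp)
  cases h2 : inA b
  · rw [h1, h2] at h; exact absurd h (by simp)
  cases h3 : inA r
  · rw [h1, h2, h3] at h; exact absurd h (by simp)
  rw [h1, h2, h3] at h
  exact ⟨rfl, rfl, rfl, Nat.eq_of_beq_eq_true h⟩

theorem vY_lt : ∀ a b r, vY a b r = true → a < 32 → b < 32 → r < 1024 := by
  intro a b r h _ _
  have := inA_lt (vY_spec h).2.2.1
  omega

end Pool.Agent.TH497.BF
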