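import Pool.Agent.TH497.BF.Solve

set_option autoImplicit false
set_option linter.unusedSectionVars false

/-! # From codes to the group -/

namespace Pool.Agent.TH497.BF

open Pool.Agent.TH497.T4 Pool.Agent.TH676.A

theorem xor_cancel (a b : ℕ) : a ^^^ b ^^^ b = a := by
  rw [Nat.xor_assoc, Nat.xor_self, Nat.xor_zero]

theorem QD.mid {d : Fin 4 → G} (h : QD Ag d) : (d 0).v ^^^ (d 1).v = (d 2).v ^^^ (d 3).v :=
  congrArg G.v h.eq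

theorem QD.sI {d : Fin 4 → G} (h : QD Ag d) : cd (d 0).v (d 2).v ∈ FL fI (d 3).v := by
  refine mem_FL.mpr ⟨(d 0).v ^^^ (d 1).v, (d 0).v, h.am, ?_, h.a0, ?_, ?_⟩
  · rw [h.mid, xor_cancel]; exact h.a2
  · rw [← Nat.xor_assoc, Nat.xor_self, Nat.zero_xor]; exact h.a1
  · unfold fI
    rw [h.mid, xor_cancel]

theorem QD.sI' {d : Fin 4 → G} (h : QD Ag d) : cd (d 0).v (d 3).v ∈ FL fI (d 2).v := by
  refine mem_FL.mpr ⟨(d 0).v ^^^ (d 1).v, (d 0).v, h.am, ?_, h.a0, ?_, ?_⟩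
  · rw [h.mid, Nat.xor_comm (d 2).v, xor_cancel]; exact h.a3
  · rw [← Nat.xor_assoc, Nat.xor_self, Nat.zero_xor]; exact h.a1
  · unfold fI
    rw [h.mid, Nat.xor_comm (d 2).v, xor_cancel]

theorem QD.sII {d : Fin 4 → G} (h : QD Ag d) : cd (d 0).v (d 2).v ∈ FL fII (d 1).v := by
  refine mem_FL.mpr ⟨(d 0).v ^^^ (d 1).v, (d 2).v, h.am, ?_, h.a2, ?_, ?_⟩
  · rw [xor_cancel]; exact h.a0
  · rw [h.mid, ← Nat.xor_assoc, Nat.xor_self, Nat.zero_xor]; exact h.a3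
  · unfold fII
    rw [xor_cancel]

theorem QD.sIII {d : Fin 4 → G} (h : QD Ag d) : cd (d 0).v (d 1).v ∈ FL fIII (d 2).v := by
  refine mem_FL.mpr ⟨(d 0).v ^^^ (d 1).v, (d 0).v, h.am, ?_, h.a0, ?_, ?_⟩
  · rw [h.mid, Nat.xor_comm (d 2).v, xor_cancel]; exact h.a3
  · rw [← Nat.xor_assoc, Nat.xor_self, Nat.zero_xor]; exact h.a1
  · unfold fIII
    rw [← Nat.xor_assoc, Nat.xor_self, Nat.zero_xor]

/-- the double with the values `a`, `b`, `c`, `d` -/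
theorem mkQD {a b c d : ℕ} (ha : inA a = true) (hb : inA b = true) (hc : inA c = true)
    (hd : inA d = true) (hm : inA (a ^^^ b) = true) (h : a ^^^ b = c ^^^ d) :
    QD Ag ![⟨a, inA_lt ha⟩, ⟨b, inA_lt hb⟩, ⟨c, inA_lt hc⟩, ⟨d, inA_lt hd⟩] :=
  ⟨ha, hb, hc, hd, hm, G.ext' h⟩

theorem of_fI {z r : ℕ} (hz : inA z = true) (h : r ∈ FL fI z) : ∃ d : Fin 4 → G, QD Ag d ∧
    (d 3).v = z ∧ r = cd (d 0).v (d 2).v := by
  obtain ⟨m, a, h1, h2, h3, h4, h5⟩ := mem_FL.mp h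
  have h6 : a ^^^ (a ^^^ m) = m := by rw [← Nat.xor_assoc, Nat.xor_self, Nat.zero_xor]
  refine ⟨_, mkQD h3 h4 h2 hz (by rw [h6]; exact h1) (by rw [h6, xor_cancel]), rfl, h5⟩

theorem of_fI' {z r : ℕ} (hz : inA z = true) (h : r ∈ FL fI z) : ∃ d : Fin 4 → G, QD Ag d ∧
    (d 2).v = z ∧ r = cd (d 0).v (d 3).v := by
  obtain ⟨m, a, h1, h2, h3, h4, h5⟩ := mem_FL.mp h
  have h6 : a ^^^ (a ^^^ m) = m := by rw [← Nat.xor_assoc, Nat.xor_self, Nat.zero_xor]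
  refine ⟨_, mkQD h3 h4 hz h2 (by rw [h6]; exact h1)
    (by rw [h6, Nat.xor_comm z, xor_cancel]), rfl, h5⟩

theorem of_fII {z r : ℕ} (hz : inA z = true) (h : r ∈ FL fII z) : ∃ d : Fin 4 → G, QD Ag d ∧
    (d 1).v = z ∧ r = cd (d 0).v (d 2).v := by
  obtain ⟨m, a, h1, h2, h3, h4, h5⟩ := mem_FL.mp h
  have h6 : a ^^^ (a ^^^ m) = m := by rw [← Nat.xor_assoc, Nat.xor_self, Nat.zero_xor]
  refine ⟨_, mkQD h2 hz h3 h4 (by rw [xor_cancel]; exact h1) (by rw [h6, xor_cancel]), rfl, h5⟩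

theorem of_fIII {z r : ℕ} (hz : inA z = true) (h : r ∈ FL fIII z) : ∃ d : Fin 4 → G, QD Ag d ∧
    (d 2).v = z ∧ r = cd (d 0).v (d 1).v := by
  obtain ⟨m, a, h1, h2, h3, h4, h5⟩ := mem_FL.mp h
  have h6 : a ^^^ (a ^^^ m) = m := by rw [← Nat.xor_assoc, Nat.xor_self, Nat.zero_xor]
  refine ⟨_, mkQD h3 h4 hz h2 (by rw [h6]; exact h1)
    (by rw [h6, Nat.xor_comm z, xor_cancel]), rfl, h5⟩

theorem of_vD {b d r : ℕ} (h : vD b d r = true) : ∃ e : Fin 4 → G, QD Ag e ∧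
    (e 1).v = b ∧ (e 3).v = d ∧ r = cd (e 0).v (e 2).v := by
  obtain ⟨a, g, h1, h2, h3, h4, h5, h6, h7⟩ := vD_spec h
  exact ⟨_, mkQD h1 h2 h3 h4 h5 h6, rfl, rfl, h7⟩

/-- the image of a double under an automorphism -/
theorem QD.map {d : Fin 4 → G} (h : QD Ag d) (i : ℕ) (hi : i < 5) :
    QD Ag (fun k => T i hi (d k)) where
  a0 := (T_A i hi _).mpr h.a0
  a1 := (T_A i hi _).mpr h.a1
  a2 := (T_A i hi _).mpr h.a2
  a3 := (T_A i hi _).mpr h.a3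
  am := by rw [← map_add]; exact (T_A i hi _).mpr h.am
  eq := by rw [← map_add, ← map_add, h.eq]

theorem T_inj (i : ℕ) (hi : i < 5) {x y : G} (h : T i hi x = T i hi y) : x = y := by
  rw [← T_T i hi x, h, T_T]

theorem full_testBit {c : ℕ} (hc : c < 1024) : (2 ^ 1024 - 1 : ℕ).testBit c = true := by
  rw [Nat.testBit_two_pow_sub_one]; exact decide_eq_true hc

theorem QD.sum {d : Fin 4 → G} (h : QD Ag d) : d 0 + d 1 + d 2 + d 3 = 0 := by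
  rw [h.eq, add_assoc (d 2 + d 3) (d 2) (d 3), ex2G]

/-! ### The configuration c2 -/

/-- the statement of c2 -/
def P2 (p q : G) : Prop := ∀ d2 d3 : Fin 4 → G, QD Ag d2 → QD Ag d3 →
    ∃ e1 e2 e3 : Fin 4 → G, QD Ag e1 ∧ QD Ag e2 ∧ QD Ag e3 ∧
      p + d2 0 + d3 0 = e1 0 + e2 0 + e3 0 ∧ p + d2 3 = e1 1 + e2 3 ∧
      q + d2 2 + d3 2 = e1 2 + e2 2 + e3 2 ∧ q + d3 1 = e1 3 + e3 1 ∧
      d2 1 + d3 3 = e2 1 + e3 3

theorem P2_map (i : ℕ) (hi : i < 5) (p q : G) (h : P2 (T i hi p) (T i hi q)) : P2 p q := by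
  intro d2 d3 h2 h3
  obtain ⟨e1, e2, e3, k1, k2, k3, m1, m2, m3, m4, m5⟩ := h _ _ (h2.map i hi) (h3.map i hi)
  refine ⟨_, _, _, k1.map i hi, k2.map i hi, k3.map i hi, ?_, ?_, ?_, ?_, ?_⟩ <;>
    apply T_inj i hi <;> simp only [map_add, T_T]
  · exact m1
  · exact m2
  · exact m3
  · exact m4
  · exact m5

/-- the last equation follows from the others -/
theorem last2 {p q : G} {d2 d3 e1 e2 e3 : Fin 4 → G} (h2 : QD Ag d2) (h3 : QD Ag d3)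
    (k1 : QD Ag e1) (k2 : QD Ag e2) (k3 : QD Ag e3)
    (m1 : p + d2 0 + d3 0 = e1 0 + e2 0 + e3 0) (m2 : p + d2 3 = e1 1 + e2 3)
    (m3 : q + d2 2 + d3 2 = e1 2 + e2 2 + e3 2) (m4 : q + d3 1 = e1 3 + e3 1) :
    d2 1 + d3 3 = e2 1 + e3 3 := by
  have a1 : (d2 1 + d3 3) + ((p + d2 0 + d3 0) + (p + d2 3) + (q + d2 2 + d3 2) + (q + d3 1))
      = 0 := by
    have e : (d2 1 + d3 3) + ((p + d2 0 + d3 0) + (p + d2 3) + (q + d2 2 + d3 2) + (q + d3 1))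
      = (d2 0 + d2 1 + d2 2 + d2 3) + (d3 0 + d3 1 + d3 2 + d3 3) + (p + p) + (q + q) := by abel
    rw [e, h2.sum, h3.sum, ex2G p, ex2G q]; simp
  have a2 : (e2 1 + e3 3) + ((p + d2 0 + d3 0) + (p + d2 3) + (q + d2 2 + d3 2) + (q + d3 1))
      = 0 := by
    rw [m1, m2, m3, m4]
    have e : (e2 1 + e3 3) + ((e1 0 + e2 0 + e3 0) + (e1 1 + e2 3) + (e1 2 + e2 2 + e3 2) +
      (e1 3 + e3 1)) = (e1 0 + e1 1 + e1 2 + e1 3) + (e2 0 + e2 1 + e2 2 + e2 3) +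
        (e3 0 + e3 1 + e3 2 + e3 3) := by abel
    rw [e, k1.sum, k2.sum, k3.sum]; simp
  exact add_right_cancel (a1.trans a2.symm)

/-- the last equation follows from the others -/
theorem last3 {p q : G} {d2 d3 e1 e2 e3 : Fin 4 → G} (h2 : QD Ag d2) (h3 : QD Ag d3)
    (k1 : QD Ag e1) (k2 : QD Ag e2) (k3 : QD Ag e3)
    (m1 : p + d2 0 + d3 0 = e1 0 + e2 0 + e3 0) (m2 : p + d2 3 = e1 1 + e2 3)
    (m3 : q + d2 2 + d3 1 = e1 2 + e2 2 + e3 1) (m4 : q + d3 2 = e1 3 + e3 2) :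
    d2 1 + d3 3 = e2 1 + e3 3 := by
  have a1 : (d2 1 + d3 3) + ((p + d2 0 + d3 0) + (p + d2 3) + (q + d2 2 + d3 1) + (q + d3 2))
      = 0 := by
    have e : (d2 1 + d3 3) + ((p + d2 0 + d3 0) + (p + d2 3) + (q + d2 2 + d3 1) + (q + d3 2))
      = (d2 0 + d2 1 + d2 2 + d2 3) + (d3 0 + d3 1 + d3 2 + d3 3) + (p + p) + (q + q) := by abel
    rw [e, h2.sum, h3.sum, ex2G p, ex2G q]; simp
  have a2 : (e2 1 + e3 3) + ((p + d2 0 + d3 0) + (p + d2 3) + (q + d2 2 + d3 1) + (q + d3 2))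
      = 0 := by
    rw [m1, m2, m3, m4]
    have e : (e2 1 + e3 3) + ((e1 0 + e2 0 + e3 0) + (e1 1 + e2 3) + (e1 2 + e2 2 + e3 1) +
      (e1 3 + e3 2)) = (e1 0 + e1 1 + e1 2 + e1 3) + (e2 0 + e2 1 + e2 2 + e2 3) +
        (e3 0 + e3 1 + e3 2 + e3 3) := by abel
    rw [e, k1.sum, k2.sum, k3.sum]; simp
  exact add_right_cancel (a1.trans a2.symm)

/-- the last equation follows from the others -/
theorem last1 {r w ι ι' : G} {d1 d2 e1 e2 : Fin 4 → G} (h1 : QD Ag d1) (h2 : QD Ag d2)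
    (k1 : QD Ag e1) (k2 : QD Ag e2) (h0 : d1 0 = d2 0) (m0 : w + ι + ι' = 0)
    (m1 : w + e1 0 + e2 0 = 0) (m2 : r + d1 2 = ι + e1 2) (m3 : r + d2 2 = ι' + e2 2)
    (m4 : d1 1 + d2 3 = e1 1 + e2 3) :
    d1 3 + d2 1 = e1 3 + e2 1 := by
  have a1 : (d1 3 + d2 1) + ((d1 0 + d2 0) + (r + d1 2) + (r + d2 2) + (d1 1 + d2 3)) = 0 := by
    have e : (d1 3 + d2 1) + ((d1 0 + d2 0) + (r + d1 2) + (r + d2 2) + (d1 1 + d2 3))
      = (d1 0 + d1 1 + d1 2 + d1 3) + (d2 0 + d2 1 + d2 2 + d2 3) + (r + r) := by abel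
    rw [e, h1.sum, h2.sum, ex2G r]; simp
  have a2 : (e1 3 + e2 1) + ((d1 0 + d2 0) + (r + d1 2) + (r + d2 2) + (d1 1 + d2 3)) = 0 := by
    have z : d1 0 + d2 0 = w + e1 0 + e2 0 := by rw [h0, ex2G, m1]
    rw [z, m2, m3, m4]
    have e : (e1 3 + e2 1) + ((w + e1 0 + e2 0) + (ι + e1 2) + (ι' + e2 2) + (e1 1 + e2 3))
      = (e1 0 + e1 1 + e1 2 + e1 3) + (e2 0 + e2 1 + e2 2 + e2 3) + (w + ι + ι') := by abel
    rw [e, k1.sum, k2.sum, m0]; simp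
  exact add_right_cancel (a1.trans a2.symm)

theorem lt3 {a b c : ℕ} (ha : a < 32) (hb : b < 32) (hc : c < 32) : a ^^^ (b ^^^ c) < 32 :=
  Nat.xor_lt_two_pow (n := 5) ha (Nat.xor_lt_two_pow (n := 5) hb hc)

theorem xor_back (a b c : ℕ) : c ^^^ (a ^^^ b ^^^ c) = b ^^^ a := by
  rw [Nat.xor_comm c, xor_cancel, Nat.xor_comm]

theorem P2_rep {q : G} {cert : ℕ → ℕ → List ℕ} {tb : ℕ → ℕ → ℕ}
    (ht : ∀ x < 32, okRow fI fII tb x = true)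
    (h : ∀ x < 32, okC tb (2 ^ 1024 - 1) vD 28 q.v (cd 28 q.v) cert x = true) :
    P2 ⟨28, by norm_num⟩ q := by
  intro d2 d3 h2 h3
  have hr : cd 28 q.v < 1024 := cd_lt (by norm_num) q.h
  obtain ⟨a, b, r, k1, k2, k3, k4, k5, r2, k6, r3, k7, k8⟩ := okC_spec fI_lt fII_lt ht vD_lt
    (e1 := 28) (by norm_num) q.h hr (h _ (d2 3).h) h2.a3 h3.a1 h2.sI h3.sII
    (full_testBit (Nat.xor_lt_two_pow (n := 10) hr (Nat.xor_lt_two_pow (n := 10)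
      (FL_lt fI_lt h2.sI) (FL_lt fII_lt h3.sII))))
  obtain ⟨e1, m1, m2, m3, m4⟩ := of_vD k1
  obtain ⟨e2, n1, n2, n3⟩ := of_fI k4 k6
  obtain ⟨e3, p1, p2, p3⟩ := of_fII k5 k7
  rw [m4, n3, p3, cd_xor, cd_xor, cd_xor, cd_xor] at k8
  obtain ⟨E0, E2⟩ := cd_inj (lt3 (by norm_num) (d2 0).h (d3 0).h)
    (lt3 (e1 0).h (e2 0).h (e3 0).h) k8
  have G0 : (⟨28, by norm_num⟩ : G) + d2 0 + d3 0 = e1 0 + e2 0 + e3 0 :=
    G.ext' (by simp only [G.v_add, Nat.xor_assoc]; exact E0)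
  have G2 : q + d2 2 + d3 2 = e1 2 + e2 2 + e3 2 :=
    G.ext' (by simp only [G.v_add, Nat.xor_assoc]; exact E2)
  have G1 : (⟨28, by norm_num⟩ : G) + d2 3 = e1 1 + e2 3 :=
    G.ext' (by simp only [G.v_add]; rw [m2, n2, xor_back])
  have G3 : q + d3 1 = e1 3 + e3 1 :=
    G.ext' (by simp only [G.v_add]; rw [m3, p2, xor_back])
  exact ⟨e1, e2, e3, m1, n1, p1, G0, G1, G2, G3, last2 h2 h3 m1 n1 p1 G0 G1 G2 G3⟩

/-! ### The configuration c3 -/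

/-- the statement of c3 -/
def P3 (p q : G) : Prop := ∀ d2 d3 : Fin 4 → G, QD Ag d2 → QD Ag d3 →
    ∃ e1 e2 e3 : Fin 4 → G, QD Ag e1 ∧ QD Ag e2 ∧ QD Ag e3 ∧
      p + d2 0 + d3 0 = e1 0 + e2 0 + e3 0 ∧ p + d2 3 = e1 1 + e2 3 ∧
      q + d2 2 + d3 1 = e1 2 + e2 2 + e3 1 ∧ q + d3 2 = e1 3 + e3 2 ∧
      d2 1 + d3 3 = e2 1 + e3 3

theorem P3_map (i : ℕ) (hi : i < 5) (p q : G) (h : P3 (T i hi p) (T i hi q)) : P3 p q := by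
  intro d2 d3 h2 h3
  obtain ⟨e1, e2, e3, k1, k2, k3, m1, m2, m3, m4, m5⟩ := h _ _ (h2.map i hi) (h3.map i hi)
  refine ⟨_, _, _, k1.map i hi, k2.map i hi, k3.map i hi, ?_, ?_, ?_, ?_, ?_⟩ <;>
    apply T_inj i hi <;> simp only [map_add, T_T]
  · exact m1
  · exact m2
  · exact m3
  · exact m4
  · exact m5

theorem P3_rep {q : G} {cert : ℕ → ℕ → List ℕ} {tb : ℕ → ℕ → ℕ}
    (ht : ∀ x < 32, okRow fI fIII tb x = true)
    (h : ∀ x < 32, okC tb (2 ^ 1024 - 1) vD 28 q.v (cd 28 q.v) cert x = true) :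
    P3 ⟨28, by norm_num⟩ q := by
  intro d2 d3 h2 h3
  have hr : cd 28 q.v < 1024 := cd_lt (by norm_num) q.h
  obtain ⟨a, b, r, k1, k2, k3, k4, k5, r2, k6, r3, k7, k8⟩ := okC_spec fI_lt fIII_lt ht vD_lt
    (e1 := 28) (by norm_num) q.h hr (h _ (d2 3).h) h2.a3 h3.a2 h2.sI h3.sIII
    (full_testBit (Nat.xor_lt_two_pow (n := 10) hr (Nat.xor_lt_two_pow (n := 10)
      (FL_lt fI_lt h2.sI) (FL_lt fIII_lt h3.sIII))))
  obtain ⟨e1, m1, m2, m3, m4⟩ := of_vD k1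
  obtain ⟨e2, n1, n2, n3⟩ := of_fI k4 k6
  obtain ⟨e3, p1, p2, p3⟩ := of_fIII k5 k7
  rw [m4, n3, p3, cd_xor, cd_xor, cd_xor, cd_xor] at k8
  obtain ⟨E0, E2⟩ := cd_inj (lt3 (by norm_num) (d2 0).h (d3 0).h)
    (lt3 (e1 0).h (e2 0).h (e3 0).h) k8
  have G0 : (⟨28, by norm_num⟩ : G) + d2 0 + d3 0 = e1 0 + e2 0 + e3 0 :=
    G.ext' (by simp only [G.v_add, Nat.xor_assoc]; exact E0)
  have G2 : q + d2 2 + d3 1 = e1 2 + e2 2 + e3 1 :=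
    G.ext' (by simp only [G.v_add, Nat.xor_assoc]; exact E2)
  have G1 : (⟨28, by norm_num⟩ : G) + d2 3 = e1 1 + e2 3 :=
    G.ext' (by simp only [G.v_add]; rw [m2, n2, xor_back])
  have G3 : q + d3 2 = e1 3 + e3 2 :=
    G.ext' (by simp only [G.v_add]; rw [m3, p2, xor_back])
  exact ⟨e1, e2, e3, m1, n1, p1, G0, G1, G2, G3, last3 h2 h3 m1 n1 p1 G0 G1 G2 G3⟩

/-! ### The configuration c1 -/

/-- the statement of c1 -/
def P1 (r : G) : Prop := ∀ d1 d2 : Fin 4 → G, QD Ag d1 → QD Ag d2 → d1 0 = d2 0 →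
    ∃ w ι ι' : G, ∃ e1 e2 : Fin 4 → G, Ag w ∧ Ag ι ∧ Ag ι' ∧ w + ι + ι' = 0 ∧ QD Ag e1 ∧
      QD Ag e2 ∧ w + e1 0 + e2 0 = 0 ∧ r + d1 2 = ι + e1 2 ∧ r + d2 2 = ι' + e2 2 ∧
      d1 1 + d2 3 = e1 1 + e2 3 ∧ d1 3 + d2 1 = e1 3 + e2 1

theorem P1_map (i : ℕ) (hi : i < 5) (p : G) (h : P1 (T i hi p)) : P1 p := by
  intro d1 d2 h1 h2 h0
  obtain ⟨w, ι, ι', e1, e2, a1, a2, a3, a4, k1, k2, m1, m2, m3, m4, m5⟩ :=
    h _ _ (h1.map i hi) (h2.map i hi) (congrArg (T i hi) h0)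
  refine ⟨T i hi w, T i hi ι, T i hi ι', _, _, (T_A i hi _).mpr a1, (T_A i hi _).mpr a2,
    (T_A i hi _).mpr a3, ?_, k1.map i hi, k2.map i hi, ?_, ?_, ?_, ?_, ?_⟩ <;>
    apply T_inj i hi <;> simp only [map_add, T_T, map_zero]
  · exact a4
  · exact m1
  · exact m2
  · exact m3
  · exact m4
  · exact m5

/-- the codes `32 j` -/
def okR (R : ℕ) : Bool := allB (fun j => Nat.testBit R (j <<< 5)) 32

theorem P1_rep {cert : ℕ → ℕ → List ℕ} {tb : ℕ → ℕ → ℕ} {R : ℕ} (hR : okR R = true)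
    (ht : ∀ x < 32, okRow fI fIII tb x = true)
    (h : ∀ x < 32, okC tb R vY 28 28 0 cert x = true) : P1 ⟨28, by norm_num⟩ := by
  intro d1 d2 h1 h2 h0
  have hj : (d2 3).v ^^^ (d1 1).v < 32 := Nat.xor_lt_two_pow (n := 5) (d2 3).h (d1 1).h
  have hc : 0 ^^^ (cd (d2 0).v (d2 3).v ^^^ cd (d1 0).v (d1 1).v) =
      ((d2 3).v ^^^ (d1 1).v) <<< 5 := by
    rw [Nat.zero_xor, cd_xor, h0, Nat.xor_self]
    unfold cd
    rw [Nat.zero_xor]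
  obtain ⟨a, b, r, k1, k2, k3, k4, k5, r2, k6, r3, k7, k8⟩ := okC_spec fI_lt fIII_lt ht vY_lt
    (e1 := 28) (e2 := 28) (r1 := 0) (by norm_num) (by norm_num) (by norm_num) (h _ (d2 2).h) h2.a2
    h1.a2 h2.sI' h1.sIII (by rw [hc]; exact allB_spec hR _ hj)
  obtain ⟨v1, v2, v3, v4⟩ := vY_spec k1
  obtain ⟨e2, n1, n2, n3⟩ := of_fI' k4 k6
  obtain ⟨e1, p1, p2, p3⟩ := of_fIII k5 k7
  have hr32 := inA_lt v3
  have er : r = cd r 0 := by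
    unfold cd
    rw [Nat.zero_shiftLeft, Nat.xor_zero]
  have hc2 : ((d2 3).v ^^^ (d1 1).v) <<< 5 = cd 0 ((d2 3).v ^^^ (d1 1).v) := by
    unfold cd; rw [Nat.zero_xor]
  rw [hc, hc2, er, n3, p3, cd_xor, cd_xor] at k8
  obtain ⟨E0, E2⟩ := cd_inj (by norm_num) (lt3 hr32 (e2 0).h (e1 0).h) k8
  have ha : a < 32 := inA_lt v1
  have hb : b < 32 := inA_lt v2
  have M0 : (⟨r, hr32⟩ : G) + ⟨b, hb⟩ + ⟨a, ha⟩ = 0 := G.ext' (by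
    change r ^^^ b ^^^ a = 0
    rw [← v4, xor_cancel, Nat.xor_self])
  have M1 : (⟨r, hr32⟩ : G) + e1 0 + e2 0 = 0 := G.ext' (by
    change r ^^^ (e1 0).v ^^^ (e2 0).v = 0
    rw [Nat.xor_assoc, Nat.xor_comm (e1 0).v]; exact E0.symm)
  have M2 : (⟨28, by norm_num⟩ : G) + d1 2 = ⟨b, hb⟩ + e1 2 := G.ext' (by
    change 28 ^^^ (d1 2).v = b ^^^ (e1 2).v
    rw [p2, xor_back])
  have M3 : (⟨28, by norm_num⟩ : G) + d2 2 = ⟨a, ha⟩ + e2 2 := G.ext' (by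
    change 28 ^^^ (d2 2).v = a ^^^ (e2 2).v
    rw [n2, xor_back])
  have M4 : d1 1 + d2 3 = e1 1 + e2 3 := G.ext' (by
    change (d1 1).v ^^^ (d2 3).v = (e1 1).v ^^^ (e2 3).v
    rw [Nat.xor_comm (d1 1).v, E2, Nat.zero_xor, Nat.xor_comm])
  exact ⟨⟨r, hr32⟩, ⟨b, hb⟩, ⟨a, ha⟩, e1, e2, v3, v2, v1, M0, p1, n1, M1, M2, M3, M4,
    last1 h1 h2 p1 n1 h0 M0 M1 M2 M3 M4⟩

end Pool.Agent.TH497.BF
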