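import Pool.Agent.TH497.BF.Fin

set_option autoImplicit false

/-! # Graphs of treewidth at most four: from the usual definitions -/

namespace Pool.Agent.TH497.BF.Tw

open Finset

variable {V E : Type} [Fintype V] [DecidableEq V] [Fintype E] [DecidableEq E]
variable {src dst : E → V}

/-- the degree of `v` in the set of edges `F`, where a loop counts twice -/
def dg (src dst : E → V) (F : Finset E) (v : V) : ℕ :=
  ∑ e ∈ F, ((if src e = v then 1 else 0) + (if dst e = v then 1 else 0))

/-- the complements of six even subgraphs in a cubic graph -/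
theorem compl6 {C : Fin 6 → Finset E} (h1 : ∀ i v, Even (dg src dst (C i) v))
    (h2 : ∀ e, (univ.filter fun i => e ∈ C i).card = 4) (h3 : ∀ v, dg src dst univ v = 3) :
    (∀ i v, dg src dst (univ \ C i) v = 1) ∧
      ∀ e, (univ.filter fun i => e ∈ univ \ C i).card = 2 := by
  have hM : ∀ e, (univ.filter fun i => e ∈ univ \ C i).card = 2 := by
    intro e
    have h4 := h2 e
    have h5 : (univ.filter fun i => e ∈ univ \ C i).card + (univ.filter fun i => e ∈ C i).card =
        6 := by
      rw [← card_union_of_disjoint]
      · have : (univ.filter fun i => e ∈ univ \ C i) ∪ (univ.filter fun i => e ∈ C i) = univ := by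
          ext i
          simp only [mem_union, mem_filter, mem_univ, true_and, mem_sdiff]
          tauto
        rw [this, card_univ, Fintype.card_fin]
      · rw [disjoint_left]
        intro i h6 h7
        rw [mem_filter, mem_sdiff] at h6
        rw [mem_filter] at h7
        exact h6.2.2 h7.2
    omega
  refine ⟨fun i v => ?_, hM⟩
  -- the complement of each even subgraph has odd degrees
  have h4 : ∀ j, 1 ≤ dg src dst (univ \ C j) v := by
    intro j
    have h5 : dg src dst (univ \ C j) v + dg src dst (C j) v = 3 := by
      rw [← h3 v]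
      unfold dg
      exact sum_sdiff (subset_univ _)
    obtain ⟨k, hk⟩ : Even (dg src dst (C j) v) := h1 j v
    omega
  -- the sum of the six degrees is six
  have h5 : ∑ j, dg src dst (univ \ C j) v = 6 := by
    have h6 : ∀ j, dg src dst (univ \ C j) v = ∑ e, if e ∈ univ \ C j then
        ((if src e = v then 1 else 0) + (if dst e = v then 1 else 0)) else 0 := by
      intro j
      unfold dg
      rw [sum_ite_mem, univ_inter]
    rw [sum_congr rfl fun j _ => h6 j, sum_comm]
    have h7 : ∀ e, (∑ j, if e ∈ univ \ C j then
        ((if src e = v then 1 else 0) + (if dst e = v then 1 else 0)) else 0) =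
        2 * ((if src e = v then 1 else 0) + (if dst e = v then 1 else 0)) := by
      intro e
      rw [← sum_filter, sum_const, hM e, smul_eq_mul]
    rw [sum_congr rfl fun e _ => h7 e, ← mul_sum]
    have h8 : dg src dst univ v = 3 := h3 v
    unfold dg at h8
    rw [h8]
    norm_num
  have h6 : dg src dst (univ \ C i) v + ∑ j ∈ univ.erase i, dg src dst (univ \ C j) v =
      ∑ j, dg src dst (univ \ C j) v :=
    add_sum_erase univ (fun j => dg src dst (univ \ C j) v) (mem_univ i)
  have h7 : 5 ≤ ∑ j ∈ univ.erase i, dg src dst (univ \ C j) v := by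
    have h8 := card_nsmul_le_sum (univ.erase i) (fun j => dg src dst (univ \ C j) v) 1
      (fun j _ => h4 j)
    rw [card_erase_of_mem (mem_univ _), card_univ, Fintype.card_fin] at h8
    simpa using h8
  have h8 := h4 i
  change dg src dst (univ \ C i) v = 1
  omega

/-- the parity of a cut in a cubic graph -/
theorem parity (h3 : ∀ v, dg src dst univ v = 3) (Y : Finset V) :
    (Odd Y.card ↔ Odd (TH676.A.crs src dst Y).card) := by
  have h4 : ((∑ v ∈ Y, dg src dst univ v : ℕ) : ZMod 2) = ((TH676.A.crs src dst Y).card : ZMod 2) := by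
    unfold dg TH676.A.crs
    rw [sum_comm, card_filter]
    push_cast
    refine sum_congr rfl fun e _ => ?_
    rw [sum_add_distrib, sum_ite_eq, sum_ite_eq]
    by_cases h5 : src e ∈ Y <;> by_cases h6 : dst e ∈ Y <;> simp [h5, h6] <;> decide
  rw [sum_congr rfl fun v _ => h3 v, sum_const, smul_eq_mul] at h4
  have h5 : ((Y.card : ℕ) : ZMod 2) = ((TH676.A.crs src dst Y).card : ZMod 2) := by
    rw [← h4]; push_cast
    have : (3 : ZMod 2) = 1 := by decide
    rw [this, mul_one]
  rw [← Nat.not_even_iff_odd, ← Nat.not_even_iff_odd, ← ZMod.natCast_eq_zero_iff_even,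
    ← ZMod.natCast_eq_zero_iff_even, h5]

end Pool.Agent.TH497.BF.Tw
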