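import Pool.Agent.TH497.BF.Grp

set_option autoImplicit false

/-! # Words in the transpositions which bring a pair of values to one of three pairs -/

namespace Pool.Agent.TH497.BF

open Pool.Agent.TH497.T4

def WT : List (List (List ℕ)) := [
  [],
  [],
  [],
  [],
  [],
  [],
  [],
  [[],[],[],[],[],[],[],[2,3,1,2,0,1],[],[],[],[1,2,3,0,1,2,0,1,0],[],[2,3,0,1,2,0,1,0],[2,3,1,2,0,1,0],[2,3,4,1,2,3,0,1,2,0],[],[],[],[1,2,3,0,1,2,0,1],[],[2,3,0,1,2,0,1],[2,3,1,2,0,1],[2,3,4,1,2,3,0,1,2],[],[0,1,2,3,1,2,0,1],[1,2,3,1,2,0,1],[1,2,3,4,0,1,2,3,0,1],[2,3,1,2,0,1],[2,3,4,0,1,2,3,0,1],[2,3,4,1,2,3,0,1],[]],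
  [],
  [],
  [],
  [[],[],[],[],[],[],[],[1,2,3,0,1,2,1,0],[],[],[],[3,1,2,0,1],[],[3,0,1,2,0,1,0],[3,1,2,0,1,0],[3,4,1,2,3,0,1,2,0],[],[],[],[1,2,3,0,1,2,1],[],[0,1,2,3,2,0,1],[1,2,3,2,0,1],[1,2,3,4,0,1,2,3,1],[],[3,0,1,2,0,1],[3,1,2,0,1],[3,4,1,2,3,0,1,2],[3,1,2,0,1],[3,4,0,1,2,3,0,1],[3,4,1,2,3,0,1],[]],
  [],
  [[],[],[],[],[],[],[],[2,3,0,1,2,1,0],[],[],[],[3,0,1,2,1,0],[],[3,2,0,1],[3,2,0,1,0],[3,4,2,3,0,1,2,0],[],[],[],[0,1,2,3,2,1],[],[2,3,0,1,2,1],[2,3,2,0,1],[2,3,4,0,1,2,3,1],[],[3,0,1,2,1],[3,2,0,1],[3,4,0,1,2,3,1],[3,2,0,1],[3,4,2,3,0,1,2],[3,4,2,3,0,1],[]],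
  [[],[],[],[],[],[],[],[2,3,1,2,1,0],[],[],[],[3,1,2,1,0],[],[3,2,1,0],[3,2,1],[3,4,2,3,1,2,0],[],[],[],[1,2,3,2,1],[],[2,3,2,1],[2,3,1,2,1],[2,3,4,1,2,3,1],[],[3,2,1],[3,1,2,1],[3,4,1,2,3,1],[3,2,1],[3,4,2,3,1],[3,4,2,3,1,2],[]],
  [[],[],[],[],[],[],[],[2,3,4,1,2,3,0,1,2,0,1],[],[],[],[3,4,1,2,3,0,1,2,0,1],[],[3,4,2,3,0,1,2,0,1],[3,4,2,3,1,2,0,1],[3,4,2,3,1,2,0,1],[],[],[],[1,2,3,4,0,1,2,3,1,2,0,1],[],[2,3,4,0,1,2,3,1,2,0,1],[2,3,4,1,2,3,1,2,0,1],[2,3,4,1,2,3,0,1,2,0,1,0],[],[3,4,0,1,2,3,1,2,0,1],[3,4,1,2,3,1,2,0,1],[3,4,1,2,3,0,1,2,0,1,0],[3,4,2,3,1,2,0,1],[3,4,2,3,0,1,2,0,1,0],[3,4,2,3,1,2,0,1,0],[]],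
  [],
  [],
  [],
  [[],[],[],[],[],[],[],[1,2,3,0,1,2,0],[],[],[],[1,2,3,0,1,2],[],[0,1,2,3,0,1],[1,2,3,0,1],[1,2,3,4,0,1,2,3],[],[],[],[1,2,0,1],[],[0,1,2,0,1,0],[1,2,0,1,0],[4,1,2,3,0,1,2,0],[],[0,1,2,0,1],[1,2,0,1],[4,1,2,3,0,1,2],[1,2,0,1],[4,0,1,2,3,0,1],[4,1,2,3,0,1],[]],
  [],
  [[],[],[],[],[],[],[],[2,3,0,1,2,0],[],[],[],[0,1,2,3,1],[],[2,3,0,1,2],[2,3,0,1],[2,3,4,0,1,2,3],[],[],[],[0,1,2,1,0],[],[2,0,1],[2,0,1,0],[4,2,3,0,1,2,0],[],[0,1,2,1],[2,0,1],[4,0,1,2,3,1],[2,0,1],[4,2,3,0,1,2],[4,2,3,0,1],[]],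
  [[],[],[],[],[],[],[],[2,3,1,2,0],[],[],[],[1,2,3,1],[],[2,3,1],[2,3,1,2],[2,3,4,1,2,3],[],[],[],[1,2,1,0],[],[2,1,0],[2,1],[4,2,3,1,2,0],[],[2,1],[1,2,1],[4,1,2,3,1],[2,1],[4,2,3,1],[4,2,3,1,2],[]],
  [[],[],[],[],[],[],[],[2,3,4,1,2,3,0,1,2,1],[],[],[],[1,2,3,4,0,1,2,3,2,0,1],[],[2,3,4,0,1,2,3,2,0,1],[2,3,4,1,2,3,2,0,1],[2,3,4,1,2,3,0,1,2,1,0],[],[],[],[4,1,2,3,0,1,2,0,1],[],[4,2,3,0,1,2,0,1],[4,2,3,1,2,0,1],[4,2,3,1,2,0,1],[],[4,0,1,2,3,1,2,0,1],[4,1,2,3,1,2,0,1],[4,1,2,3,0,1,2,0,1,0],[4,2,3,1,2,0,1],[4,2,3,0,1,2,0,1,0],[4,2,3,1,2,0,1,0],[]],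
  [],
  [[],[],[],[],[],[],[],[0,1,2,3],[],[],[],[3,0,1,2,0],[],[3,0,1,2],[3,0,1],[3,4,0,1,2,3],[],[],[],[0,1,2,0],[],[0,1,2],[0,1],[4,0,1,2,3],[],[0,1],[0,1,0],[4,3,0,1,2,0],[0,1],[4,3,0,1,2],[4,3,0,1],[]],
  [[],[],[],[],[],[],[],[1,2,3],[],[],[],[3,1,2,0],[],[3,1],[3,1,2],[3,4,1,2,3],[],[],[],[1,2,0],[],[1],[1,2],[4,1,2,3],[],[1,0],[1],[4,3,1,2,0],[1],[4,3,1],[4,3,1,2],[]],
  [[],[],[],[],[],[],[],[1,2,3,4,0,1,2,3,2,1],[],[],[],[3,4,1,2,3,0,1,2,1],[],[3,4,0,1,2,3,2,0,1],[3,4,1,2,3,2,0,1],[3,4,1,2,3,0,1,2,1,0],[],[],[],[4,1,2,3,0,1,2,1],[],[4,0,1,2,3,2,0,1],[4,1,2,3,2,0,1],[4,1,2,3,0,1,2,1,0],[],[4,3,0,1,2,0,1],[4,3,1,2,0,1],[4,3,1,2,0,1],[4,3,1,2,0,1],[4,3,0,1,2,0,1,0],[4,3,1,2,0,1,0],[]],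
  [[],[],[],[],[],[],[],[2,3],[],[],[],[3],[],[3,2,0],[3,2],[3,4,2,3],[],[],[],[],[],[2,0],[2],[4,2,3],[],[0],[],[4,3],[],[4,3,2,0],[4,3,2],[]],
  [[],[],[],[],[],[],[],[2,3,4,0,1,2,3,2,1],[],[],[],[3,4,0,1,2,3,2,1],[],[3,4,2,3,0,1,2,1],[3,4,2,3,2,0,1],[3,4,2,3,0,1,2,1,0],[],[],[],[4,0,1,2,3,2,1],[],[4,2,3,0,1,2,1],[4,2,3,2,0,1],[4,2,3,0,1,2,1,0],[],[4,3,0,1,2,1],[4,3,2,0,1],[4,3,0,1,2,1,0],[4,3,2,0,1],[4,3,2,0,1],[4,3,2,0,1,0],[]],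
  [[],[],[],[],[],[],[],[2,3,4,1,2,3,2,1],[],[],[],[3,4,1,2,3,2,1],[],[3,4,2,3,2,1],[3,4,2,3,1,2,1],[3,4,2,3,1,2,1,0],[],[],[],[4,1,2,3,2,1],[],[4,2,3,2,1],[4,2,3,1,2,1],[4,2,3,1,2,1,0],[],[4,3,2,1],[4,3,1,2,1],[4,3,1,2,1,0],[4,3,2,1],[4,3,2,1,0],[4,3,2,1],[]],
  []]

/-- one of the three representatives of the pairs -/
def isRep (p q : ℕ) : Bool :=
  bif Nat.beq p 28 then
    bif Nat.beq q 28 then true else bif Nat.beq q 26 then true else Nat.beq q 19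
  else false

def wordOf (p q : ℕ) : List ℕ := (WT.getD p []).getD q []

def chkW (p q : ℕ) : Bool :=
  bif inA p then (bif inA q then
    (bif isRep (wd (wordOf p q) p) (wd (wordOf p q) q) then
      (wordOf p q).all (fun i => Nat.ble i 4) else false) else true) else true

theorem chkW_all : allB (fun p => allB (chkW p) 32) 32 = true := by decide +kernel

theorem rep_cases {p q : ℕ} (h : isRep p q = true) :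
    p = 28 ∧ (q = 28 ∨ q = 26 ∨ q = 19) := by
  unfold isRep at h
  cases h1 : Nat.beq p 28
  · rw [h1] at h; exact absurd h (by simp)
  · rw [h1, cond_true] at h
    refine ⟨Nat.eq_of_beq_eq_true h1, ?_⟩
    cases h2 : Nat.beq q 28
    · rw [h2, cond_false] at h
      cases h3 : Nat.beq q 26
      · rw [h3, cond_false] at h
        exact Or.inr (Or.inr (Nat.eq_of_beq_eq_true h))
      · exact Or.inr (Or.inl (Nat.eq_of_beq_eq_true h3))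
    · exact Or.inl (Nat.eq_of_beq_eq_true h2)

/-- every pair of values can be moved to one of three pairs -/
theorem exists_word {p q : ℕ} (hp : p < 32) (hq : q < 32) (hpA : inA p = true)
    (hqA : inA q = true) : ∃ w : List ℕ, (∀ i ∈ w, i < 5) ∧
      wd w p = 28 ∧ (wd w q = 28 ∨ wd w q = 26 ∨ wd w q = 19) := by
  have h := allB_spec (allB_spec chkW_all p hp) q hq
  unfold chkW at h
  rw [hpA, hqA, cond_true, cond_true] at h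
  cases h1 : isRep (wd (wordOf p q) p) (wd (wordOf p q) q)
  · rw [h1] at h; exact absurd h (by simp)
  · rw [h1, cond_true, List.all_eq_true] at h
    obtain ⟨h2, h3⟩ := rep_cases h1
    refine ⟨wordOf p q, fun i hi => ?_, h2, h3⟩
    have := Nat.ble_eq.mp (h i hi)
    omega

/-- a statement on pairs of values which is invariant under the transpositions -/
theorem pair_induct (P : G → G → Prop) (hT : ∀ i (hi : i < 5) p q, P (T i hi p) (T i hi q) → P p q)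
    (h : ∀ q : G, (q.v = 28 ∨ q.v = 26 ∨ q.v = 19) → P ⟨28, by norm_num⟩ q) :
    ∀ p q, Ag p → Ag q → P p q := by
  intro p q hp hq
  obtain ⟨w, hw, h1, h2⟩ := exists_word p.h q.h hp hq
  have key : ∀ (w : List ℕ), (∀ i ∈ w, i < 5) → ∀ p q : G, wd w p.v = 28 →
      (wd w q.v = 28 ∨ wd w q.v = 26 ∨ wd w q.v = 19) → P p q := by
    intro w
    induction w with
    | nil =>
      intro _ p q h1 h2
      have : p = ⟨28, by norm_num⟩ := G.ext' h1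
      rw [this]; exact h q h2
    | cons i w ih =>
      intro hw p q h1 h2
      have hi : i < 5 := hw i List.mem_cons_self
      exact hT i hi p q (ih (fun j hj => hw j (List.mem_cons_of_mem _ hj)) _ _ h1 h2)
  exact key w hw p q h1 h2

end Pool.Agent.TH497.BF
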